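import Mathlib

set_option autoImplicit false

/-! The Borel sigma-algebra on the circle (Mathlib has no such instance). -/

noncomputable instance instMeasurableSpaceCircle65 : MeasurableSpace Circle := borel Circle

instance instBorelSpaceCircle65 : BorelSpace Circle := ⟨rfl⟩
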