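import Mathlib
import Pool.Agent.Helper65.CircleMeas

set_option autoImplicit false

/-!
A criterion for mutual singularity, and the cyclic vector lemma.
-/

namespace Pool.Agent.Helper65.Cyclic

open MeasureTheory Submodule Set Filter Topology
open scoped ENNReal

section Singular

variable {α : Type*} [MeasurableSpace α]

lemma exists_subseq_of_lintegral (μ : Measure α) (g : ℕ → α → ℂ) (hg : ∀ n, Measurable (g n))
    (h : Tendsto (fun n => ∫⁻ x, (‖g n x‖₊ : ℝ≥0∞) ^ 2 ∂μ) atTop (𝓝 0)) :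
    ∃ ns : ℕ → ℕ, StrictMono ns ∧ ∀ᵐ x ∂μ, Tendsto (fun i => g (ns i) x) atTop (𝓝 0) := by
  have hmeas : TendstoInMeasure μ g atTop (fun _ => (0 : ℂ)) := by
    apply tendstoInMeasure_of_tendsto_eLpNorm_of_ne_top (p := 2) two_ne_zero
      ENNReal.ofNat_ne_top
    · exact fun n => (hg n).aestronglyMeasurable
    · exact aestronglyMeasurable_const
    · have h1 : ∀ n, eLpNorm (g n - fun _ => (0 : ℂ)) 2 μ =
          (∫⁻ x, (‖g n x‖₊ : ℝ≥0∞) ^ 2 ∂μ) ^ (1 / 2 : ℝ) := by
        intro n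
        rw [eLpNorm_eq_lintegral_rpow_enorm_toReal two_ne_zero ENNReal.ofNat_ne_top]
        congr 1
        · apply lintegral_congr
          intro x
          simp only [Pi.sub_apply, sub_zero, ENNReal.toReal_ofNat]
          rw [← ENNReal.rpow_natCast]
          rfl
      simp only [h1]
      have h2 : (0 : ℝ≥0∞) = 0 ^ (1 / 2 : ℝ) := by
        rw [ENNReal.zero_rpow_of_pos (by norm_num)]
      rw [h2]
      exact (ENNReal.continuous_rpow_const.tendsto 0).comp h
  obtain ⟨ns, h1, h2⟩ := hmeas.exists_seq_tendsto_ae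
  exact ⟨ns, h1, h2⟩

/-- If `p n → 1` in `L²(σ₁)` and `p n → 0` in `L²(σ₂)`, then `σ₁` and `σ₂` are mutually
singular. -/
theorem mutuallySingular_of_tendsto (σ₁ σ₂ : Measure α) (p : ℕ → α → ℂ)
    (hp : ∀ n, Measurable (p n))
    (h₁ : Tendsto (fun n => ∫⁻ z, (‖p n z - 1‖₊ : ℝ≥0∞) ^ 2 ∂σ₁) atTop (𝓝 0))
    (h₂ : Tendsto (fun n => ∫⁻ z, (‖p n z‖₊ : ℝ≥0∞) ^ 2 ∂σ₂) atTop (𝓝 0)) : σ₁ ⟂ₘ σ₂ := by
  obtain ⟨ns, hns, h3⟩ := exists_subseq_of_lintegral σ₁ (fun n z => p n z - 1)
    (fun n => (hp n).sub_const 1) h₁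
  obtain ⟨ms, hms, h4⟩ := exists_subseq_of_lintegral σ₂ (fun n z => p (ns n) z)
    (fun n => hp _) (h₂.comp hns.tendsto_atTop)
  let A : Set α := {z | Tendsto (fun i => p (ns (ms i)) z) atTop (𝓝 0)}
  have hA : MeasurableSet A := measurableSet_tendsto (𝓝 0) fun i => hp _
  refine ⟨A, hA, ?_, ?_⟩
  · rw [← compl_compl A, ← mem_ae_iff]
    filter_upwards [h3] with z hz hzA
    have h5 : Tendsto (fun i => p (ns (ms i)) z - 1) atTop (𝓝 0) :=
      hz.comp hms.tendsto_atTop
    have h6 : Tendsto (fun i => p (ns (ms i)) z - 1) atTop (𝓝 (0 - 1)) :=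
      Tendsto.sub_const hzA 1
    have := tendsto_nhds_unique h5 h6
    norm_num at this
  · rw [← mem_ae_iff]
    exact h4

end Singular

section CyclicVector

variable {H : Type*} [NormedAddCommGroup H] [InnerProductSpace ℂ H] [CompleteSpace H]
  {G : Type*} [AddCommGroup G]

omit [CompleteSpace H] in
/-- if `x` lies in the span of the orbit of `y`, then so does every `V g x` -/
lemma span_orbit_le (V : G → (H →L[ℂ] H)) (hadd : ∀ a b, V (a + b) = (V a).comp (V b))
    (F F' : AddSubgroup G) (hFF : F ≤ F') {x y : H}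
    (hx : x ∈ span ℂ {z | ∃ g ∈ F', z = V g y}) :
    span ℂ {z | ∃ g ∈ F, z = V g x} ≤ span ℂ {z | ∃ g ∈ F', z = V g y} := by
  rw [span_le]
  rintro _ ⟨g, hg, rfl⟩
  have h1 : (span ℂ {z | ∃ g ∈ F', z = V g y}).map (V g).toLinearMap ≤
      span ℂ {z | ∃ g ∈ F', z = V g y} := by
    rw [Submodule.map_span, span_le]
    rintro _ ⟨_, ⟨g', hg', rfl⟩, rfl⟩
    apply subset_span
    refine ⟨g + g', F'.add_mem (hFF hg) hg', ?_⟩
    rw [hadd]
    rfl
  exact h1 ⟨x, hx, rfl⟩

/-- the perturbation step -/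
lemma perturb (V : G → (H →L[ℂ] H)) (hadd : ∀ a b, V (a + b) = (V a).comp (V b))
    (F : AddSubgroup G) [Finite F] (b : H) (hb0 : V 0 = 1)
    {h₁ : H} (h1 : h₁ ∈ span ℂ {z | ∃ g ∈ F, z = V g b}) {η : ℝ} (hη : 0 < η) :
    ∃ h, ‖h - h₁‖ < η ∧ b ∈ span ℂ {z | ∃ g ∈ F, z = V g h} := by
  classical
  set W : Submodule ℂ H := span ℂ {z | ∃ g ∈ F, z = V g b} with hW
  have hfin : (Set.range fun g : F => V g.1 b).Finite := Set.finite_range _
  have hset : {z | ∃ g ∈ F, z = V g b} = Set.range fun g : F => V g.1 b := by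
    ext z
    constructor
    · rintro ⟨g, hg, rfl⟩
      exact ⟨⟨g, hg⟩, rfl⟩
    · rintro ⟨⟨g, hg⟩, rfl⟩
      exact ⟨g, hg, rfl⟩
  have hWfin : FiniteDimensional ℂ W := by
    rw [hW, hset]
    exact FiniteDimensional.span_of_finite ℂ hfin
  have : Fintype F := Fintype.ofFinite F
  -- elements of `W` are combinations
  have hcomb : ∀ x ∈ W, ∃ c : F → ℂ, x = ∑ g : F, c g • V g.1 b := by
    intro x hx
    rw [hW, hset, Submodule.mem_span_range_iff_exists_fun] at hx
    obtain ⟨c, hc⟩ := hx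
    exact ⟨c, hc.symm⟩
  obtain ⟨c, hc⟩ := hcomb h₁ h1
  let P : H →L[ℂ] H := ∑ g : F, c g • V g.1
  have hPb : P b = h₁ := by
    rw [hc]
    simp [P]
  have hcomm : ∀ a b' : G, ∀ x, V a (V b' x) = V b' (V a x) := by
    intro a b' x
    have e1 : V (a + b') x = V a (V b' x) := by rw [hadd]; rfl
    have e2 : V (b' + a) x = V b' (V a x) := by rw [hadd]; rfl
    rw [← e1, ← e2, add_comm]
  have hPV : ∀ g x, P (V g x) = V g (P x) := by
    intro g x
    simp only [P, ContinuousLinearMap.sum_apply, ContinuousLinearMap.smul_apply, map_sum, map_smul]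
    apply Finset.sum_congr rfl
    intro i _
    rw [hcomm]
  have hVW : ∀ g ∈ F, ∀ x ∈ W, V g x ∈ W := by
    intro g hg x hx
    have := span_orbit_le V hadd F F le_rfl hx
    exact this (subset_span ⟨g, hg, rfl⟩)
  have hPW : ∀ x ∈ W, P x ∈ W := by
    intro x hx
    simp only [P, ContinuousLinearMap.sum_apply, ContinuousLinearMap.smul_apply]
    apply W.sum_mem
    intro g _
    exact W.smul_mem _ (hVW g.1 g.2 x hx)
  have hbW : b ∈ W := by
    apply subset_span
    refine ⟨0, F.zero_mem, ?_⟩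
    rw [hb0]
    rfl
  let Q : Module.End ℂ W := P.toLinearMap.restrict hPW
  have hspec : (spectrum ℂ Q).Finite := Module.End.finite_spectrum Q
  -- choose a small number outside the spectrum
  obtain ⟨t, ht1, ht2⟩ : ∃ t : ℂ, t ∉ spectrum ℂ Q ∧ ‖t‖ * ‖b‖ < η := by
    have hpos : 0 < η / (‖b‖ + 1) := by positivity
    have hinf : (Metric.ball (0 : ℂ) (η / (‖b‖ + 1))).Infinite := by
      apply Set.Infinite.mono (s := Set.range fun n : ℕ =>
        (((η / (‖b‖ + 1)) / (n + 2 : ℝ) : ℝ) : ℂ))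
      · rintro _ ⟨n, rfl⟩
        rw [Metric.mem_ball, dist_zero_right, Complex.norm_real, Real.norm_of_nonneg (by positivity)]
        rw [div_lt_iff₀ (by positivity)]
        nlinarith [hpos, (Nat.cast_nonneg n : (0 : ℝ) ≤ n)]
      · apply Set.infinite_range_of_injective
        intro m n hmn
        have h2 := Complex.ofReal_injective hmn
        field_simp at h2
        have h3 : (m : ℝ) = n := by linarith
        exact_mod_cast h3
    obtain ⟨t, ht, ht'⟩ := (hinf.sdiff hspec).nonempty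
    refine ⟨t, ht', ?_⟩
    rw [Metric.mem_ball, dist_zero_right] at ht
    calc ‖t‖ * ‖b‖ ≤ ‖t‖ * (‖b‖ + 1) := by
          apply mul_le_mul_of_nonneg_left _ (norm_nonneg _)
          linarith
      _ < η := by rwa [lt_div_iff₀ (by positivity)] at ht
  rw [spectrum.notMem_iff] at ht1
  have hsurj : Function.Surjective (algebraMap ℂ (Module.End ℂ W) t - Q) :=
    ((Module.End.isUnit_iff _).1 ht1).2
  obtain ⟨w, hw⟩ := hsurj ⟨b, hbW⟩
  have hw2 : t • (w : H) - P w = b := congrArg Subtype.val hw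
  obtain ⟨d, hd⟩ := hcomb w.1 w.2
  refine ⟨P b - t • b, ?_, ?_⟩
  · rw [hPb, sub_sub_cancel_left, norm_neg, norm_smul]
    exact ht2
  · have h5 : ∑ g : F, (-d g) • V g.1 (P b - t • b) = b := by
      have h6 : P w = ∑ g : F, d g • V g.1 (P b) := by
        rw [hd, map_sum]
        apply Finset.sum_congr rfl
        intro g _
        rw [map_smul, hPV]
      have h7 : t • (w : H) = ∑ g : F, d g • V g.1 (t • b) := by
        rw [hd, Finset.smul_sum]
        apply Finset.sum_congr rfl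
        intro g _
        rw [map_smul, smul_comm]
      calc ∑ g : F, (-d g) • V g.1 (P b - t • b)
          = ∑ g : F, (d g • V g.1 (t • b) - d g • V g.1 (P b)) := by
            apply Finset.sum_congr rfl
            intro g _
            rw [map_sub, smul_sub, neg_smul, neg_smul]
            abel
        _ = b := by
            rw [Finset.sum_sub_distrib, ← h6, ← h7]
            exact hw2
    have h8 : ∑ g : F, (-d g) • V g.1 (P b - t • b) ∈
        span ℂ {z | ∃ g ∈ F, z = V g (P b - t • b)} :=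
      Submodule.sum_mem _ fun g _ => Submodule.smul_mem _ _ (subset_span ⟨g.1, g.2, rfl⟩)
    rw [h5] at h8
    exact h8

/-- **Cyclic vector lemma.** -/
theorem exists_cyclic (V : G → (H →L[ℂ] H)) (hV0 : V 0 = 1)
    (hadd : ∀ a b, V (a + b) = (V a).comp (V b))
    (Gm : ℕ → AddSubgroup G) (hmono : Monotone Gm) (hfin : ∀ m, Finite (Gm m))
    (b : ℕ → H) (hb : ∀ m, b m ∈ span ℂ {z | ∃ g ∈ Gm (m + 1), z = V g (b (m + 1))})
    (hdense : closure (⋃ m, (span ℂ {z | ∃ g ∈ Gm m, z = V g (b m)} : Set H)) = univ) :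
    ∃ h : H, (span ℂ (Set.range fun g => V g h)).topologicalClosure = ⊤ := by
  let E : ℕ → Submodule ℂ H := fun m => span ℂ {z | ∃ g ∈ Gm m, z = V g (b m)}
  have hE : Monotone E := by
    apply monotone_nat_of_le_succ
    intro m
    exact span_orbit_le V hadd (Gm m) (Gm (m + 1)) (hmono (Nat.le_succ m)) (hb m)
  have hself : ∀ m, b m ∈ E m := by
    intro m
    apply subset_span
    refine ⟨0, (Gm m).zero_mem, ?_⟩
    rw [hV0]
    rfl
  let Z : H → Submodule ℂ H := fun h => span ℂ (Set.range fun g => V g h)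
  let U : ℕ × ℕ → Set H := fun mk => {h | ∃ x ∈ Z h, ‖x - b mk.1‖ < 1 / (mk.2 + 1 : ℝ)}
  have hopen : ∀ mk, IsOpen (U mk) := by
    intro mk
    rw [isOpen_iff_mem_nhds]
    rintro h ⟨x, hx, hxb⟩
    rw [Finsupp.mem_span_range_iff_exists_finsupp] at hx
    obtain ⟨c, hc⟩ := hx
    have hcont : Continuous fun h' : H => ‖(c.sum fun g a => a • V g h') - b mk.1‖ := by
      unfold Finsupp.sum
      fun_prop
    have hmem : {h' : H | ‖(c.sum fun g a => a • V g h') - b mk.1‖ < 1 / (mk.2 + 1 : ℝ)} ∈ 𝓝 h := by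
      apply (isOpen_lt hcont continuous_const).mem_nhds
      show ‖(c.sum fun g a => a • V g h) - b mk.1‖ < _
      rw [hc]
      exact hxb
    filter_upwards [hmem] with h' hh'
    refine ⟨c.sum fun g a => a • V g h', ?_, hh'⟩
    rw [Finsupp.mem_span_range_iff_exists_finsupp]
    exact ⟨c, rfl⟩
  have hUdense : ∀ mk, Dense (U mk) := by
    rintro ⟨m, k⟩
    rw [Metric.dense_iff]
    intro h₀ ε hε
    have h1 : h₀ ∈ closure (⋃ m, (E m : Set H)) := by
      rw [hdense]; trivial
    obtain ⟨h₁, hh₁, hd⟩ := Metric.mem_closure_iff.1 h1 (ε / 2) (by positivity)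
    rw [mem_iUnion] at hh₁
    obtain ⟨M', hM'⟩ := hh₁
    let M := max M' m
    have hM : h₁ ∈ E M := hE (le_max_left _ _) hM'
    have := hfin M
    obtain ⟨h, hh, hbM⟩ := perturb V hadd (Gm M) (b M) hV0 hM (η := ε / 2) (by positivity)
    refine ⟨h, ?_, ?_⟩
    · rw [Metric.mem_ball]
      calc dist h h₀ ≤ dist h h₁ + dist h₁ h₀ := dist_triangle _ _ _
        _ < ε / 2 + ε / 2 := by
          apply add_lt_add
          · rwa [dist_eq_norm]
          · rwa [dist_comm]
        _ = ε := by ring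
    · refine ⟨b m, ?_, ?_⟩
      · have h2 : b m ∈ E M := hE (le_max_right _ _) (hself m)
        have h3 := span_orbit_le V hadd (Gm M) (Gm M) le_rfl hbM h2
        apply span_mono _ h3
        rintro _ ⟨g, _, rfl⟩
        exact ⟨g, rfl⟩
      · show ‖b m - b m‖ < 1 / (k + 1 : ℝ)
        rw [sub_self, norm_zero]
        positivity
  obtain ⟨h, hh⟩ := (dense_iInter_of_isOpen hopen hUdense).nonempty
  refine ⟨h, ?_⟩
  rw [mem_iInter] at hh
  have hbm : ∀ m, b m ∈ (Z h).topologicalClosure := by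
    intro m
    rw [← SetLike.mem_coe, Submodule.topologicalClosure_coe, Metric.mem_closure_iff]
    intro ε hε
    obtain ⟨k, hk⟩ := exists_nat_one_div_lt hε
    obtain ⟨x, hx, hxb⟩ := hh (m, k)
    refine ⟨x, hx, ?_⟩
    rw [dist_comm, dist_eq_norm]
    exact hxb.trans hk
  have hinv : ∀ g, ∀ x ∈ (Z h).topologicalClosure, V g x ∈ (Z h).topologicalClosure := by
    intro g x hx
    have h2 : (Z h).map (V g).toLinearMap ≤ Z h := by
      rw [Submodule.map_span, span_le]
      rintro _ ⟨_, ⟨g', rfl⟩, rfl⟩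
      apply subset_span
      refine ⟨g + g', ?_⟩
      show V (g + g') h = V g (V g' h)
      rw [hadd]
      rfl
    have h3 : MapsTo (V g) (Z h) (Z h) := fun y hy => h2 ⟨y, hy, rfl⟩
    exact h3.closure (V g).continuous hx
  have hEle : ∀ m, E m ≤ (Z h).topologicalClosure := by
    intro m
    rw [span_le]
    rintro _ ⟨g, _, rfl⟩
    exact hinv g _ (hbm m)
  rw [eq_top_iff]
  intro x _
  have h4 : x ∈ closure (⋃ m, (E m : Set H)) := by
    rw [hdense]; trivial
  have h5 : closure (⋃ m, (E m : Set H)) ⊆ ((Z h).topologicalClosure : Set H) := by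
    apply closure_minimal
    · exact iUnion_subset fun m => hEle m
    · exact Submodule.isClosed_topologicalClosure _
  exact h5 h4

end CyclicVector

end Pool.Agent.Helper65.Cyclic
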