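import Mathlib
import Pool.Agent.Helper65.CircleMeas

set_option autoImplicit false

/-!
Dense monomials in `L²(σ)` of the circle and the Gram lemma (unitary equivalence of two total
families with the same Gram matrix).
-/

namespace Pool.Agent.Helper65.Gram

open MeasureTheory Submodule Set
open scoped ENNReal

/-- the monomial `z ↦ z ^ n` as a continuous function on the circle -/
noncomputable def mon (n : ℤ) : C(Circle, ℂ) :=
  ⟨fun z => ((z ^ n : Circle) : ℂ), continuous_induced_dom.comp (continuous_zpow n)⟩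

@[simp] lemma mon_apply (n : ℤ) (z : Circle) : mon n z = ((z ^ n : Circle) : ℂ) := rfl

theorem span_mon_closure_eq_top :
    (span ℂ (range mon)).topologicalClosure = ⊤ := by
  let e : AddCircle (1 : ℝ) ≃ₜ Circle := AddCircle.homeomorphCircle one_ne_zero
  have he : ∀ z, (e.symm z).toCircle = z := by
    intro z
    rw [← AddCircle.homeomorphCircle_apply one_ne_zero]
    exact e.apply_symm_apply z
  let L : C(AddCircle (1 : ℝ), ℂ) →L[ℂ] C(Circle, ℂ) :=
    { toLinearMap := (ContinuousMap.compRightAlgHom ℂ ℂ (e.symm : C(Circle, _))).toLinearMap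
      cont := ContinuousMap.compRightAlgHom_continuous _ _ _ }
  have hL : DenseRange L := by
    apply Function.Surjective.denseRange
    intro f
    refine ⟨f.comp (e : C(_, Circle)), ?_⟩
    ext z
    show f (e (e.symm z)) = f z
    rw [e.apply_symm_apply]
  have h := hL.topologicalClosure_map_submodule
    (span_fourier_closure_eq_top (T := (1 : ℝ)))
  rw [← h]
  congr 1
  rw [Submodule.map_span]
  congr 1
  ext f
  constructor
  · rintro ⟨n, rfl⟩
    refine ⟨fourier n, ⟨n, rfl⟩, ?_⟩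
    ext z
    show fourier n (e.symm z) = ((z ^ n : Circle) : ℂ)
    rw [fourier_apply]
    congr 1
    rw [AddCircle.toCircle_zsmul, he]
  · rintro ⟨_, ⟨n, rfl⟩, rfl⟩
    refine ⟨n, ?_⟩
    ext z
    show ((z ^ n : Circle) : ℂ) = fourier n (e.symm z)
    rw [fourier_apply]
    congr 1
    rw [AddCircle.toCircle_zsmul, he]

theorem memLp_mon (σ : Measure Circle) [IsFiniteMeasure σ] (n : ℤ) :
    MemLp (fun z : Circle => ((z ^ n : Circle) : ℂ)) 2 σ := by
  apply MemLp.of_bound (C := 1)
  · exact (mon n).continuous.aestronglyMeasurable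
  · exact Filter.Eventually.of_forall fun z => (Circle.norm_coe _).le

/-- the monomial `z ↦ z ^ n` in `L²(σ)` -/
noncomputable def mono (σ : Measure Circle) [IsFiniteMeasure σ] (n : ℤ) : Lp ℂ 2 σ :=
  (memLp_mon σ n).toLp _

lemma coeFn_mono (σ : Measure Circle) [IsFiniteMeasure σ] (n : ℤ) :
    (mono σ n : Circle → ℂ) =ᵐ[σ] fun z => ((z ^ n : Circle) : ℂ) :=
  (memLp_mon σ n).coeFn_toLp

lemma toLp_mon (σ : Measure Circle) [IsFiniteMeasure σ] (n : ℤ) :
    ContinuousMap.toLp (E := ℂ) 2 σ ℂ (mon n) = mono σ n := by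
  apply Lp.ext
  filter_upwards [ContinuousMap.coeFn_toLp (p := 2) (𝕜 := ℂ) σ (mon n), coeFn_mono σ n]
    with z h1 h2
  rw [h1, h2, mon_apply]

/-- the monomials span a dense subspace of `L²(σ)` -/
theorem dense_monomials (σ : Measure Circle) [IsFiniteMeasure σ] :
    (Submodule.span ℂ (Set.range fun n : ℤ => (mono σ n : Lp ℂ 2 σ))).topologicalClosure = ⊤ := by
  have h := (ContinuousMap.toLp_denseRange (E := ℂ) (p := 2) (μ := σ) ℂ
    ENNReal.ofNat_ne_top).topologicalClosure_map_submodule span_mon_closure_eq_top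
  rw [← h]
  congr 1
  rw [Submodule.map_span]
  congr 1
  ext f
  constructor
  · rintro ⟨n, rfl⟩
    exact ⟨mon n, ⟨n, rfl⟩, toLp_mon σ n⟩
  · rintro ⟨_, ⟨n, rfl⟩, rfl⟩
    exact ⟨n, (toLp_mon σ n).symm⟩

section GramLemma

variable {ι H₁ H₂ : Type*} [NormedAddCommGroup H₁] [InnerProductSpace ℂ H₁] [CompleteSpace H₁]
  [NormedAddCommGroup H₂] [InnerProductSpace ℂ H₂] [CompleteSpace H₂]

/-- **Gram lemma**: two total families with the same Gram matrix are unitarily equivalent. -/
theorem equiv_of_gram (u : ι → H₁) (w : ι → H₂)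
    (hg : ∀ i j, inner ℂ (u i) (u j) = inner ℂ (w i) (w j))
    (hu : (span ℂ (range u)).topologicalClosure = ⊤)
    (hw : (span ℂ (range w)).topologicalClosure = ⊤) :
    ∃ Φ : H₁ ≃ₗᵢ[ℂ] H₂, ∀ i, Φ (u i) = w i := by
  let T₁ : (ι →₀ ℂ) →ₗ[ℂ] H₁ := Finsupp.linearCombination ℂ u
  let T₂ : (ι →₀ ℂ) →ₗ[ℂ] H₂ := Finsupp.linearCombination ℂ w
  have hinner : ∀ a b, inner ℂ (T₁ a) (T₁ b) = inner ℂ (T₂ a) (T₂ b) := by
    intro a b
    show inner ℂ (a.sum fun i c => c • u i) (b.sum fun i c => c • u i) =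
      inner ℂ (a.sum fun i c => c • w i) (b.sum fun i c => c • w i)
    rw [Finsupp.sum_inner, Finsupp.sum_inner]
    apply Finsupp.sum_congr
    intro i _
    rw [Finsupp.inner_sum, Finsupp.inner_sum]
    simp only [inner_smul_left, inner_smul_right, hg]
  have hnorm : ∀ a, ‖T₂ a‖ = ‖T₁ a‖ := by
    intro a
    rw [@norm_eq_sqrt_re_inner ℂ, @norm_eq_sqrt_re_inner ℂ, hinner]
  have hker : LinearMap.ker T₁ = LinearMap.ker T₂ := by
    ext a
    rw [LinearMap.mem_ker, LinearMap.mem_ker, ← norm_eq_zero, ← hnorm, norm_eq_zero]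
  let f : LinearMap.range T₁ ≃ₗ[ℂ] LinearMap.range T₂ :=
    T₁.quotKerEquivRange.symm ≪≫ₗ Submodule.quotEquivOfEq _ _ hker ≪≫ₗ T₂.quotKerEquivRange
  have hf : ∀ a, f ⟨T₁ a, LinearMap.mem_range_self T₁ a⟩ = ⟨T₂ a, LinearMap.mem_range_self T₂ a⟩ := by
    intro a
    have h1 : T₁.quotKerEquivRange.symm ⟨T₁ a, LinearMap.mem_range_self T₁ a⟩ =
        Submodule.Quotient.mk a := by
      rw [LinearEquiv.symm_apply_eq]
      rfl
    show T₂.quotKerEquivRange (Submodule.quotEquivOfEq _ _ hker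
      (T₁.quotKerEquivRange.symm ⟨T₁ a, LinearMap.mem_range_self T₁ a⟩)) = _
    rw [h1]
    rfl
  have hd₁ : DenseRange (LinearMap.range T₁).subtype := by
    have : LinearMap.range T₁ = span ℂ (range u) := Finsupp.range_linearCombination ℂ
    rw [this]
    rw [DenseRange]
    have h2 : range (span ℂ (range u)).subtype = (span ℂ (range u) : Set H₁) := by simp
    rw [h2]
    exact (Submodule.dense_iff_topologicalClosure_eq_top).2 hu
  have hd₂ : DenseRange (LinearMap.range T₂).subtype := by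
    have : LinearMap.range T₂ = span ℂ (range w) := Finsupp.range_linearCombination ℂ
    rw [this]
    rw [DenseRange]
    have h2 : range (span ℂ (range w)).subtype = (span ℂ (range w) : Set H₂) := by simp
    rw [h2]
    exact (Submodule.dense_iff_topologicalClosure_eq_top).2 hw
  have hn : ∀ x, ‖(LinearMap.range T₂).subtype (f x)‖ = ‖(LinearMap.range T₁).subtype x‖ := by
    rintro ⟨_, a, rfl⟩
    rw [hf]
    exact hnorm a
  refine ⟨f.extendOfIsometry _ _ hd₁ hd₂ hn, ?_⟩
  intro i
  have h1 : T₁ (Finsupp.single i 1) = u i := by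
    show Finsupp.linearCombination ℂ u _ = _
    rw [Finsupp.linearCombination_single, one_smul]
  have h2 : T₂ (Finsupp.single i 1) = w i := by
    show Finsupp.linearCombination ℂ w _ = _
    rw [Finsupp.linearCombination_single, one_smul]
  rw [← h1, ← h2]
  have h3 := f.extendOfIsometry_eq _ _ hd₁ hd₂ hn
    ⟨T₁ (Finsupp.single i 1), LinearMap.mem_range_self T₁ _⟩
  rw [hf] at h3
  exact h3

end GramLemma

end Pool.Agent.Helper65.Gram
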