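import Mathlib
import Pool.Agent.Helper65.CircleMeas
import Pool.Agent.Helper65.Gram

set_option autoImplicit false

/-!
The spectral measure of a vector for a unitary operator (Herglotz).
-/

namespace Pool.Agent.Helper65.SpecMeas

open MeasureTheory Set ContinuousMap
open scoped ComplexConjugate CompactlySupported
open Pool.Agent.Helper65.Gram

variable {H : Type*} [NormedAddCommGroup H] [InnerProductSpace ℂ H] [CompleteSpace H]

/-- Functional calculus of a unitary operator on the circle. -/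
theorem exists_calculus (U : H ≃ₗᵢ[ℂ] H) :
    ∃ Φ : C(Circle, ℂ) →⋆ₐ[ℂ] (H →L[ℂ] H), ∀ n : ℤ, ∀ x, Φ (mon n) x = (U ^ n) x := by
  let u : unitary (H →L[ℂ] H) := Unitary.linearIsometryEquiv.symm U
  have hspec : spectrum ℂ (u : H →L[ℂ] H) ⊆ Metric.sphere 0 1 :=
    spectrum.subset_circle_of_unitary u.2
  have hn : IsStarNormal (u : H →L[ℂ] H) := inferInstance
  let ι : C(spectrum ℂ (u : H →L[ℂ] H), Circle) :=
    ⟨fun x => ⟨x.1, hspec x.2⟩, by
      apply Continuous.subtype_mk
      exact continuous_subtype_val⟩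
  let Φ : C(Circle, ℂ) →⋆ₐ[ℂ] (H →L[ℂ] H) :=
    (cfcHom hn).comp (ContinuousMap.compStarAlgHom' ℂ ℂ ι)
  have h1 : Φ (mon 1) = (u : H →L[ℂ] H) := by
    refine Eq.trans ?_ (cfcHom_id (R := ℂ) hn)
    show cfcHom hn ((mon 1).comp ι) = _
    congr 1
    ext x
    show (((ι x) ^ (1 : ℤ) : Circle) : ℂ) = x.1
    rw [zpow_one]
    rfl
  have hmon : ∀ n : ℤ, mon n ∈ unitary C(Circle, ℂ) := by
    intro n
    rw [Unitary.mem_iff]
    constructor
    · ext z
      show conj ((z ^ n : Circle) : ℂ) * ((z ^ n : Circle) : ℂ) = 1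
      rw [Complex.conj_mul', Circle.norm_coe]
      norm_num
    · ext z
      show ((z ^ n : Circle) : ℂ) * conj ((z ^ n : Circle) : ℂ) = 1
      rw [Complex.mul_conj', Circle.norm_coe]
      norm_num
  have hpow : ∀ n : ℤ, (⟨mon n, hmon n⟩ : unitary C(Circle, ℂ)) = ⟨mon 1, hmon 1⟩ ^ n := by
    intro n
    induction n with
    | zero =>
      rw [zpow_zero]
      apply Subtype.ext
      ext z
      simp
    | succ n ih =>
      rw [zpow_add_one, ← ih]
      apply Subtype.ext
      ext z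
      show ((z ^ ((n : ℤ) + 1) : Circle) : ℂ) = ((z ^ (n : ℤ) : Circle) : ℂ) * ((z ^ (1 : ℤ) : Circle) : ℂ)
      rw [zpow_add, Circle.coe_mul]
    | pred n ih =>
      rw [zpow_sub_one, ← ih, eq_mul_inv_iff_mul_eq]
      apply Subtype.ext
      ext z
      show ((z ^ (-(n : ℤ) - 1) : Circle) : ℂ) * ((z ^ (1 : ℤ) : Circle) : ℂ) = ((z ^ (-(n : ℤ)) : Circle) : ℂ)
      rw [← Circle.coe_mul, ← zpow_add]
      congr 2
      ring
  refine ⟨Φ, ?_⟩
  intro n x
  let Ψ : C(Circle, ℂ) →⋆* (H →L[ℂ] H) :=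
    { toFun := Φ
      map_one' := map_one Φ
      map_mul' := map_mul Φ
      map_star' := map_star Φ }
  have h2 : Unitary.map Ψ ⟨mon 1, hmon 1⟩ = u := by
    apply Subtype.ext
    exact h1
  have h3 : Unitary.map Ψ ⟨mon n, hmon n⟩ = u ^ n := by
    rw [hpow, map_zpow, h2]
  have h4 : Φ (mon n) = ((u ^ n : unitary (H →L[ℂ] H)) : H →L[ℂ] H) :=
    congrArg Subtype.val h3
  rw [h4]
  have h5 : Unitary.linearIsometryEquiv (u ^ n) = U ^ n := by
    rw [map_zpow, MulEquiv.apply_symm_apply]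
  rw [← h5]
  rfl

/-- a real continuous function as a complex one -/
noncomputable def emb (f : C(Circle, ℝ)) : C(Circle, ℂ) :=
  (⟨Complex.ofReal, Complex.continuous_ofReal⟩ : C(ℝ, ℂ)).comp f

/-- **Spectral measure** of a vector for a unitary operator. -/
theorem exists_spectral_measure (U : H ≃ₗᵢ[ℂ] H) (h : H) :
    ∃ σ : Measure Circle, IsFiniteMeasure σ ∧
      ∀ n : ℤ, ∫ z, ((z ^ n : Circle) : ℂ) ∂σ = inner ℂ h ((U ^ n) h) := by
  obtain ⟨Φ, hΦ⟩ := exists_calculus U
  have hadd : ∀ f g : C(Circle, ℝ), emb (f + g) = emb f + emb g := by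
    intro f g; ext z; simp [emb]
  have hsmul : ∀ (c : ℝ) (f : C(Circle, ℝ)), emb (c • f) = (c : ℂ) • emb f := by
    intro c f; ext z; simp [emb]
  have hstar : ∀ f : C(Circle, ℝ), star (emb f) = emb f := by
    intro f; ext z; simp [emb]
  have hself : ∀ (f : C(Circle, ℝ)) (x y : H), inner ℂ (Φ (emb f) x) y = inner ℂ x (Φ (emb f) y) := by
    intro f x y
    have h1 : star (Φ (emb f)) = Φ (emb f) := by rw [← map_star, hstar]
    rw [ContinuousLinearMap.star_eq_adjoint] at h1
    rw [← ContinuousLinearMap.adjoint_inner_left, h1]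
  have hpos : ∀ f : C(Circle, ℝ), 0 ≤ f → 0 ≤ (inner ℂ h (Φ (emb f) h)).re := by
    intro f hf
    let g : C(Circle, ℝ) := ⟨fun z => Real.sqrt (f z), by fun_prop⟩
    have h1 : emb f = emb g * emb g := by
      ext z
      show ((f z : ℝ) : ℂ) = ((Real.sqrt (f z) : ℝ) : ℂ) * ((Real.sqrt (f z) : ℝ) : ℂ)
      rw [← Complex.ofReal_mul, Real.mul_self_sqrt (show 0 ≤ f z from hf z)]
    rw [h1, map_mul]
    show 0 ≤ (inner ℂ h (Φ (emb g) (Φ (emb g) h))).re
    rw [← hself]
    exact inner_self_nonneg (𝕜 := ℂ)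
  let Λ : C_c(Circle, ℝ) →ₚ[ℝ] ℝ := PositiveLinearMap.mk₀
    { toFun := fun f => (inner ℂ h (Φ (emb f.toContinuousMap) h)).re
      map_add' := by
        intro f g
        have : (f + g).toContinuousMap = f.toContinuousMap + g.toContinuousMap := rfl
        rw [this, hadd, map_add, ContinuousLinearMap.add_apply, inner_add_right, Complex.add_re]
      map_smul' := by
        intro c f
        have : (c • f).toContinuousMap = c • f.toContinuousMap := rfl
        rw [this, hsmul, map_smul, ContinuousLinearMap.smul_apply, inner_smul_right,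
          Complex.re_ofReal_mul]
        rfl } (by
      intro f hf
      exact hpos f.toContinuousMap hf)
  let σ : Measure Circle := RealRMK.rieszMeasure Λ
  have hσ : IsFiniteMeasure σ := by
    have : IsFiniteMeasureOnCompacts σ := inferInstance
    exact ⟨isCompact_univ.measure_lt_top⟩
  refine ⟨σ, hσ, ?_⟩
  have hint : ∀ f : C(Circle, ℝ), ∫ z, f z ∂σ = (inner ℂ h (Φ (emb f) h)).re := by
    intro f
    let f' : C_c(Circle, ℝ) :=
      { toFun := f
        hasCompactSupport' := HasCompactSupport.of_compactSpace _ }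
    have h1 := RealRMK.integral_rieszMeasure Λ f'
    exact h1
  have hreal : ∀ f : C(Circle, ℝ), inner ℂ h (Φ (emb f) h) = ((∫ z, f z ∂σ : ℝ) : ℂ) := by
    intro f
    rw [hint]
    apply Complex.ext
    · rw [Complex.ofReal_re]
    · rw [Complex.ofReal_im]
      have h1 : conj (inner ℂ h (Φ (emb f) h)) = inner ℂ h (Φ (emb f) h) := by
        rw [inner_conj_symm, hself]
      exact Complex.conj_eq_iff_im.1 h1
  intro n
  rw [← hΦ n h]
  let fr : C(Circle, ℝ) := ⟨fun z => (((z ^ n : Circle) : ℂ)).re,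
    Complex.continuous_re.comp (mon n).continuous⟩
  let fi : C(Circle, ℝ) := ⟨fun z => (((z ^ n : Circle) : ℂ)).im,
    Complex.continuous_im.comp (mon n).continuous⟩
  have hdec : mon n = emb fr + Complex.I • emb fi := by
    ext z
    show ((z ^ n : Circle) : ℂ) = ((((z ^ n : Circle) : ℂ)).re : ℂ) +
      Complex.I * ((((z ^ n : Circle) : ℂ)).im : ℂ)
    rw [mul_comm]
    exact (Complex.re_add_im _).symm
  rw [hdec, map_add, map_smul, ContinuousLinearMap.add_apply, ContinuousLinearMap.smul_apply,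
    inner_add_right, inner_smul_right, hreal, hreal]
  have hi : Integrable (fun z : Circle => ((z ^ n : Circle) : ℂ)) σ := by
    apply Integrable.of_bound (C := 1)
    · exact (mon n).continuous.aestronglyMeasurable
    · exact Filter.Eventually.of_forall fun z => (Circle.norm_coe _).le
  have h1 : ∫ z, ((z ^ n : Circle) : ℂ) ∂σ =
      ((∫ z, (((z ^ n : Circle) : ℂ)).re ∂σ : ℝ) : ℂ) +
      ((∫ z, (((z ^ n : Circle) : ℂ)).im ∂σ : ℝ) : ℂ) * Complex.I := by
    rw [← integral_re_add_im hi]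
    rfl
  rw [h1, mul_comm Complex.I]
  rfl

end Pool.Agent.Helper65.SpecMeas
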