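import Mathlib
import Pool.Agent.Helper65.CircleMeas
import Pool.Agent.Helper65.Gram
import Pool.Agent.Helper65.Cyclic
import Pool.Agent.Helper65.SpecMeas

set_option autoImplicit false

/-!
Assembly of the spectral model of a unitary operator from a family of orthogonal cyclic vectors.
-/

namespace Pool.Agent.Helper65.Assemble

open MeasureTheory Submodule Set Filter Topology
open scoped ENNReal
open Pool.Agent.Helper65.Gram Pool.Agent.Helper65.Cyclic Pool.Agent.Helper65.SpecMeas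

section Mul

variable (σ : Measure Circle) [IsFiniteMeasure σ]

lemma norm_zmul (z : Circle) (w : ℂ) : ‖(z : ℂ) * w‖ = ‖w‖ := by
  rw [norm_mul, Circle.norm_coe, one_mul]

omit [IsFiniteMeasure σ] in
lemma memLp_zmul (g : Lp ℂ 2 σ) : MemLp (fun z : Circle => (z : ℂ) * (g : Circle → ℂ) z) 2 σ := by
  have hm : AEStronglyMeasurable (fun z : Circle => (z : ℂ) * (g : Circle → ℂ) z) σ :=
    ((show Continuous (fun z : Circle => (z : ℂ)) from
      continuous_induced_dom).aestronglyMeasurable).mul (Lp.aestronglyMeasurable g)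
  exact (memLp_congr_norm hm (Lp.aestronglyMeasurable g)
    (Eventually.of_forall fun z => norm_zmul z _)).2 (Lp.memLp g)

/-- multiplication by `z` on `L²(σ)` -/
noncomputable def zmul : Lp ℂ 2 σ →ₗᵢ[ℂ] Lp ℂ 2 σ where
  toFun g := (memLp_zmul σ g).toLp _
  map_add' g h := by
    apply Lp.ext
    filter_upwards [(memLp_zmul σ (g + h)).coeFn_toLp, (memLp_zmul σ g).coeFn_toLp,
      (memLp_zmul σ h).coeFn_toLp, Lp.coeFn_add g h,
      Lp.coeFn_add ((memLp_zmul σ g).toLp _) ((memLp_zmul σ h).toLp _)] with z h1 h2 h3 h4 h5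
    rw [h1, h5, Pi.add_apply, h2, h3, h4, Pi.add_apply]
    ring
  map_smul' c g := by
    apply Lp.ext
    filter_upwards [(memLp_zmul σ (c • g)).coeFn_toLp, (memLp_zmul σ g).coeFn_toLp,
      Lp.coeFn_smul c g, Lp.coeFn_smul c ((memLp_zmul σ g).toLp _)] with z h1 h2 h4 h5
    rw [RingHom.id_apply, h1, h5, Pi.smul_apply, h2, h4, Pi.smul_apply, smul_eq_mul, smul_eq_mul]
    ring
  norm_map' g := by
    show ‖(memLp_zmul σ g).toLp _‖ = ‖g‖
    rw [Lp.norm_toLp, Lp.norm_def]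
    congr 1
    exact eLpNorm_congr_norm_ae (Eventually.of_forall fun z => norm_zmul z _)

omit [IsFiniteMeasure σ] in
lemma coeFn_zmul (g : Lp ℂ 2 σ) :
    (zmul σ g : Circle → ℂ) =ᵐ[σ] fun z => (z : ℂ) * (g : Circle → ℂ) z :=
  (memLp_zmul σ g).coeFn_toLp

lemma zmul_mono (n : ℤ) : zmul σ (mono σ n) = mono σ (n + 1) := by
  apply Lp.ext
  filter_upwards [coeFn_zmul σ (mono σ n), coeFn_mono σ n, coeFn_mono σ (n + 1)] with z h1 h2 h3
  rw [h1, h2, h3, zpow_add_one, Circle.coe_mul, mul_comm]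

lemma inner_mono (m n : ℤ) :
    inner ℂ (mono σ m) (mono σ n) = ∫ z, ((z ^ (n - m) : Circle) : ℂ) ∂σ := by
  rw [L2.inner_def]
  apply integral_congr_ae
  filter_upwards [coeFn_mono σ m, coeFn_mono σ n] with z h1 h2
  rw [h1, h2]
  show ((z ^ n : Circle) : ℂ) * (starRingEnd ℂ) ((z ^ m : Circle) : ℂ) = _
  rw [← Circle.coe_inv_eq_conj, ← Circle.coe_mul, sub_eq_add_neg, zpow_add, zpow_neg]

lemma lintegral_eq (q : C(Circle, ℂ)) :
    ∫⁻ z, (‖q z‖₊ : ℝ≥0∞) ^ 2 ∂σ =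
      ENNReal.ofReal (‖ContinuousMap.toLp (E := ℂ) 2 σ ℂ q‖) ^ 2 := by
  have h1 : ‖ContinuousMap.toLp (E := ℂ) 2 σ ℂ q‖ = (eLpNorm (q : Circle → ℂ) 2 σ).toReal := by
    rw [Lp.norm_def, eLpNorm_congr_ae (ContinuousMap.coeFn_toLp (p := 2) (𝕜 := ℂ) σ q)]
  have hfin : eLpNorm (q : Circle → ℂ) 2 σ ≠ ∞ := by
    rw [← eLpNorm_congr_ae (ContinuousMap.coeFn_toLp (p := 2) (𝕜 := ℂ) σ q)]
    exact Lp.eLpNorm_ne_top _
  rw [h1, ENNReal.ofReal_toReal hfin,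
    eLpNorm_eq_lintegral_rpow_enorm_toReal two_ne_zero ENNReal.ofNat_ne_top]
  rw [← ENNReal.rpow_natCast, ← ENNReal.rpow_mul]
  simp only [ENNReal.toReal_ofNat]
  norm_num
  rfl

end Mul

section Core

variable {H : Type*} [NormedAddCommGroup H] [InnerProductSpace ℂ H] [CompleteSpace H]
  {I : Type*}

omit [CompleteSpace H] in
lemma inner_zpow (U : H ≃ₗᵢ[ℂ] H) (x y : H) (m n : ℤ) :
    inner ℂ ((U ^ m) x) ((U ^ n) y) = inner ℂ x ((U ^ (n - m)) y) := by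
  have h : (U ^ n) y = (U ^ m) ((U ^ (n - m)) y) := by
    show (U ^ n) y = (U ^ m * U ^ (n - m)) y
    rw [← zpow_add]
    congr 2
    ring
  rw [h, LinearIsometryEquiv.inner_map_map]

/-- the spectral model, abstract form -/
theorem core (U : H ≃ₗᵢ[ℂ] H) (τ : I → Measure Circle) [∀ i, IsFiniteMeasure (τ i)] (hv : I → H)
    (c2 : ∀ i i', i ≠ i' → ∀ N : ℤ, inner ℂ (hv i) ((U ^ N) (hv i')) = 0)
    (hτ : ∀ i (N : ℤ), ∫ z, ((z ^ N : Circle) : ℂ) ∂(τ i) = inner ℂ (hv i) ((U ^ N) (hv i)))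
    (c4 : (Submodule.span ℂ {z | ∃ i, ∃ N : ℤ, z = (U ^ N) (hv i)}).topologicalClosure = ⊤) :
    ∃ Φ : H ≃ₗᵢ[ℂ] lp (fun i => Lp ℂ 2 (τ i)) 2,
      (∀ i i' (N : ℤ), i ≠ i' → Φ ((U ^ N) (hv i)) i' = 0) ∧
      (∀ i (N : ℤ), Φ ((U ^ N) (hv i)) i = mono (τ i) N) ∧
      ∀ (f : H) (i : I), Φ (U f) i = zmul (τ i) (Φ f i) := by
  classical
  let u : I × ℤ → H := fun iN => (U ^ iN.2) (hv iN.1)
  let w : I × ℤ → lp (fun i => Lp ℂ 2 (τ i)) 2 := fun iN => lp.single 2 iN.1 (mono (τ iN.1) iN.2)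
  have hg : ∀ i j, inner ℂ (u i) (u j) = inner ℂ (w i) (w j) := by
    rintro ⟨i, m⟩ ⟨j, n⟩
    show inner ℂ ((U ^ m) (hv i)) ((U ^ n) (hv j)) =
      inner ℂ (lp.single (E := fun i => Lp ℂ 2 (τ i)) 2 i (mono (τ i) m))
        (lp.single (E := fun i => Lp ℂ 2 (τ i)) 2 j (mono (τ j) n))
    rw [lp.inner_single_left, inner_zpow]
    by_cases h : i = j
    · subst h
      rw [lp.single_apply_self, inner_mono, hτ]
    · rw [c2 i j h, lp.single_apply_ne _ _ _ h, inner_zero_right]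
  have hu : (span ℂ (range u)).topologicalClosure = ⊤ := by
    rw [← c4]
    congr 2
    ext z
    constructor
    · rintro ⟨⟨i, N⟩, rfl⟩
      exact ⟨i, N, rfl⟩
    · rintro ⟨i, N, rfl⟩
      exact ⟨(i, N), rfl⟩
  have hw : (span ℂ (range w)).topologicalClosure = ⊤ := by
    rw [eq_top_iff]
    have h1 : ∀ i (g : Lp ℂ 2 (τ i)), lp.single 2 i g ∈ (span ℂ (range w)).topologicalClosure := by
      intro i g
      let L := lp.singleContinuousLinearMap ℂ (fun i => Lp ℂ 2 (τ i)) 2 i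
      have h2 : (span ℂ (range fun n : ℤ => (mono (τ i) n : Lp ℂ 2 (τ i)))).map L.toLinearMap ≤
          span ℂ (range w) := by
        rw [Submodule.map_span, span_le]
        rintro _ ⟨_, ⟨n, rfl⟩, rfl⟩
        apply subset_span
        exact ⟨(i, n), rfl⟩
      have h3 : MapsTo L (span ℂ (range fun n : ℤ => (mono (τ i) n : Lp ℂ 2 (τ i))) : Set _)
          (span ℂ (range w) : Set _) := fun y hy => h2 ⟨y, hy, rfl⟩
      have h4 := h3.closure L.continuous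
      have h5 : g ∈ closure (span ℂ (range fun n : ℤ => (mono (τ i) n : Lp ℂ 2 (τ i))) : Set _) := by
        have := dense_monomials (τ i)
        rw [← Submodule.topologicalClosure_coe, this]
        trivial
      exact h4 h5
    intro F _
    have h6 := lp.hasSum_single (E := fun i => Lp ℂ 2 (τ i)) (p := 2) ENNReal.ofNat_ne_top F
    exact (Submodule.isClosed_topologicalClosure _).mem_of_tendsto h6
      (Eventually.of_forall fun s => Submodule.sum_mem _ fun i _ => h1 i _)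
  obtain ⟨Φ, hΦ⟩ := equiv_of_gram u w hg hu hw
  have hΦ' : ∀ i (N : ℤ), Φ ((U ^ N) (hv i)) = lp.single 2 i (mono (τ i) N) := fun i N => hΦ (i, N)
  refine ⟨Φ, ?_, ?_, ?_⟩
  · intro i i' N h
    rw [hΦ', lp.single_apply_ne _ _ _ (Ne.symm h)]
  · intro i N
    rw [hΦ', lp.single_apply_self]
  · intro f i
    let ev := lp.evalCLM ℂ (fun i => Lp ℂ 2 (τ i)) 2 i
    let L₁ : H →L[ℂ] Lp ℂ 2 (τ i) :=
      ev.comp ((Φ.toContinuousLinearEquiv : H →L[ℂ] _).comp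
        (U.toContinuousLinearEquiv : H →L[ℂ] H))
    let L₂ : H →L[ℂ] Lp ℂ 2 (τ i) :=
      (zmul (τ i)).toContinuousLinearMap.comp (ev.comp (Φ.toContinuousLinearEquiv : H →L[ℂ] _))
    have h7 : L₁ = L₂ := by
      apply ContinuousLinearMap.ext_on (s := range u)
      · exact (Submodule.dense_iff_topologicalClosure_eq_top).2 hu
      · rintro _ ⟨⟨j, N⟩, rfl⟩
        show Φ (U ((U ^ N) (hv j))) i = zmul (τ i) (Φ ((U ^ N) (hv j)) i)
        have h8 : U ((U ^ N) (hv j)) = (U ^ (N + 1)) (hv j) := by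
          rw [add_comm, zpow_add, zpow_one]
          rfl
        rw [h8, hΦ', hΦ']
        by_cases h : j = i
        · subst h
          rw [lp.single_apply_self, lp.single_apply_self, zmul_mono]
        · rw [lp.single_apply_ne _ _ _ (Ne.symm h), lp.single_apply_ne _ _ _ (Ne.symm h), map_zero]
    exact congrArg (fun L : H →L[ℂ] Lp ℂ 2 (τ i) => L f) h7

omit [CompleteSpace H] in
/-- mutual singularity from joint cyclicity -/
theorem singular (U : H ≃ₗᵢ[ℂ] H) (τ : I → Measure Circle) [∀ i, IsFiniteMeasure (τ i)] (hv : I → H)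
    (Φ : H ≃ₗᵢ[ℂ] lp (fun i => Lp ℂ 2 (τ i)) 2)
    (h1 : ∀ i i' (N : ℤ), i ≠ i' → Φ ((U ^ N) (hv i)) i' = 0)
    (h2 : ∀ i (N : ℤ), Φ ((U ^ N) (hv i)) i = mono (τ i) N) {i i' : I} (hne : i ≠ i')
    (c5 : hv i ∈ (Submodule.span ℂ {z | ∃ N : ℤ, z = (U ^ N) (hv i + hv i')}).topologicalClosure) :
    τ i ⟂ₘ τ i' := by
  rw [← SetLike.mem_coe, Submodule.topologicalClosure_coe, mem_closure_iff_seq_limit] at c5
  obtain ⟨x, hx, hlim⟩ := c5
  have hset : {z | ∃ N : ℤ, z = (U ^ N) (hv i + hv i')} =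
      range fun N : ℤ => (U ^ N) (hv i + hv i') := by
    ext z
    constructor
    · rintro ⟨N, rfl⟩
      exact ⟨N, rfl⟩
    · rintro ⟨N, rfl⟩
      exact ⟨N, rfl⟩
  have hc : ∀ n, ∃ c : ℤ →₀ ℂ, (c.sum fun N a => a • (U ^ N) (hv i + hv i')) = x n := by
    intro n
    have := hx n
    rw [hset] at this
    exact Finsupp.mem_span_range_iff_exists_finsupp.1 this
  choose c hc using hc
  let q : ℕ → C(Circle, ℂ) := fun n => (c n).sum fun N a => a • mon N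
  have hq : ∀ n (j : I), ContinuousMap.toLp (E := ℂ) 2 (τ j) ℂ (q n) =
      (c n).sum fun N a => a • mono (τ j) N := by
    intro n j
    show ContinuousMap.toLp (E := ℂ) 2 (τ j) ℂ (∑ N ∈ (c n).support, (c n) N • mon N) =
      ∑ N ∈ (c n).support, (c n) N • mono (τ j) N
    rw [map_sum]
    apply Finset.sum_congr rfl
    intro N _
    rw [map_smul, toLp_mon]
  have hev : ∀ (j : I), Continuous fun y : H => Φ y j := by
    intro j
    exact (lp.evalCLM ℂ (fun i => Lp ℂ 2 (τ i)) 2 j).continuous.comp Φ.continuous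
  have hΦx : ∀ n (j : I), j = i ∨ j = i' → Φ (x n) j = (c n).sum fun N a => a • mono (τ j) N := by
    intro n j hj
    let L : H →L[ℂ] Lp ℂ 2 (τ j) := (lp.evalCLM ℂ (fun i => Lp ℂ 2 (τ i)) 2 j).comp
      (Φ.toContinuousLinearEquiv : H →L[ℂ] _)
    have hL : ∀ y, L y = Φ y j := fun y => rfl
    rw [← hL, ← hc n]
    show L (∑ N ∈ (c n).support, (c n) N • (U ^ N) (hv i + hv i')) =
      ∑ N ∈ (c n).support, (c n) N • mono (τ j) N
    rw [map_sum]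
    apply Finset.sum_congr rfl
    intro N _
    rw [map_smul, map_add, map_add, hL, hL]
    congr 1
    rcases hj with rfl | rfl
    · rw [h2, h1 _ _ _ (Ne.symm hne), add_zero]
    · rw [h2, h1 _ _ _ hne, zero_add]
  have hfi : ∀ n, Φ (x n) i = ContinuousMap.toLp (E := ℂ) 2 (τ i) ℂ (q n) := by
    intro n
    rw [hq, hΦx n i (Or.inl rfl)]
  have hfi' : ∀ n, Φ (x n) i' = ContinuousMap.toLp (E := ℂ) 2 (τ i') ℂ (q n) := by
    intro n
    rw [hq, hΦx n i' (Or.inr rfl)]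
  have e0 : (U ^ (0 : ℤ)) (hv i) = hv i := by
    rw [zpow_zero]
    rfl
  have hl1 : Tendsto (fun n => ContinuousMap.toLp (E := ℂ) 2 (τ i) ℂ (q n)) atTop
      (𝓝 (ContinuousMap.toLp (E := ℂ) 2 (τ i) ℂ (mon 0))) := by
    have h3 := ((hev i).tendsto (hv i)).comp hlim
    have h4 : Φ (hv i) i = ContinuousMap.toLp (E := ℂ) 2 (τ i) ℂ (mon 0) := by
      rw [toLp_mon, ← h2 i 0, e0]
    rw [h4] at h3
    refine h3.congr fun n => ?_
    exact hfi n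
  have hl2 : Tendsto (fun n => ContinuousMap.toLp (E := ℂ) 2 (τ i') ℂ (q n)) atTop (𝓝 0) := by
    have h3 := ((hev i').tendsto (hv i)).comp hlim
    have h4 : Φ (hv i) i' = 0 := by
      rw [← h1 i i' 0 hne, e0]
    rw [h4] at h3
    refine h3.congr fun n => ?_
    exact hfi' n
  apply mutuallySingular_of_tendsto (τ i) (τ i') (fun n z => q n z)
  · intro n
    exact (q n).continuous.measurable
  · have h5 : ∀ n, ∫⁻ z, (‖q n z - 1‖₊ : ℝ≥0∞) ^ 2 ∂(τ i) =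
        ENNReal.ofReal (‖ContinuousMap.toLp (E := ℂ) 2 (τ i) ℂ (q n) -
          ContinuousMap.toLp (E := ℂ) 2 (τ i) ℂ (mon 0)‖) ^ 2 := by
      intro n
      rw [← map_sub, ← lintegral_eq]
      apply lintegral_congr
      intro z
      have : (q n - mon 0) z = q n z - 1 := by
        rw [ContinuousMap.sub_apply, mon_apply, zpow_zero, Circle.coe_one]
      rw [this]
    simp only [h5]
    have h6 : Tendsto (fun n => ‖ContinuousMap.toLp (E := ℂ) 2 (τ i) ℂ (q n) -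
        ContinuousMap.toLp (E := ℂ) 2 (τ i) ℂ (mon 0)‖) atTop (𝓝 0) :=
      tendsto_iff_norm_sub_tendsto_zero.1 hl1
    have h7 := (ENNReal.continuous_pow 2).tendsto _ |>.comp
      ((ENNReal.continuous_ofReal.tendsto 0).comp h6)
    rw [ENNReal.ofReal_zero, zero_pow two_ne_zero] at h7
    exact h7
  · have h5 : ∀ n, ∫⁻ z, (‖q n z‖₊ : ℝ≥0∞) ^ 2 ∂(τ i') =
        ENNReal.ofReal (‖ContinuousMap.toLp (E := ℂ) 2 (τ i') ℂ (q n)‖) ^ 2 := by
      intro n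
      rw [← lintegral_eq]
    simp only [h5]
    have h6 : Tendsto (fun n => ‖ContinuousMap.toLp (E := ℂ) 2 (τ i') ℂ (q n)‖) atTop (𝓝 0) := by
      have := hl2.norm
      rwa [norm_zero] at this
    have h7 := (ENNReal.continuous_pow 2).tendsto _ |>.comp
      ((ENNReal.continuous_ofReal.tendsto 0).comp h6)
    rw [ENNReal.ofReal_zero, zero_pow two_ne_zero] at h7
    exact h7

end Core

/-- **Assembly of the spectral model.** -/
theorem assemble {H : Type*} [NormedAddCommGroup H] [InnerProductSpace ℂ H] [CompleteSpace H]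
    (U : H ≃ₗᵢ[ℂ] H) (M : Set ℕ) (h0 : 0 ∉ M) (hv : (Σ K : M, Fin (K : ℕ)) → H)
    (c2 : ∀ i i', i ≠ i' → ∀ N : ℤ, inner ℂ (hv i) ((U ^ N) (hv i')) = 0)
    (c3 : ∀ (K : M) (l l' : Fin (K : ℕ)) (N : ℤ),
      inner ℂ (hv ⟨K, l⟩) ((U ^ N) (hv ⟨K, l⟩)) = inner ℂ (hv ⟨K, l'⟩) ((U ^ N) (hv ⟨K, l'⟩)))
    (c4 : (Submodule.span ℂ {z | ∃ i, ∃ N : ℤ, z = (U ^ N) (hv i)}).topologicalClosure = ⊤)
    (c5 : ∀ i i' : (Σ K : M, Fin (K : ℕ)), i.1 ≠ i'.1 →
      hv i ∈ (Submodule.span ℂ {z | ∃ N : ℤ, z = (U ^ N) (hv i + hv i')}).topologicalClosure)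
    (c6 : ∀ i, hv i ≠ 0) :
    ∃ σ : ℕ → Measure Circle, (∀ k ∈ M, IsFiniteMeasure (σ k) ∧ σ k ≠ 0) ∧
      (∀ k ∈ M, ∀ k' ∈ M, k ≠ k' → σ k ⟂ₘ σ k') ∧
      ∃ Φ : H ≃ₗᵢ[ℂ] lp (fun i : (Σ K : M, Fin (K : ℕ)) => Lp ℂ 2 (σ i.1)) 2,
        ∀ (f : H) (i), (Φ (U f) i : Circle → ℂ) =ᵐ[σ i.1] fun z => (z : ℂ) * (Φ f i : Circle → ℂ) z := by
  classical
  have hpos : ∀ k ∈ M, 0 < k := fun k hk => Nat.pos_of_ne_zero fun h => h0 (h ▸ hk)
  have hex : ∀ k : ℕ, ∃ σ : Measure Circle, IsFiniteMeasure σ ∧ ∀ hk : k ∈ M, ∀ n : ℤ,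
      ∫ z, ((z ^ n : Circle) : ℂ) ∂σ =
        inner ℂ (hv ⟨⟨k, hk⟩, ⟨0, hpos k hk⟩⟩) ((U ^ n) (hv ⟨⟨k, hk⟩, ⟨0, hpos k hk⟩⟩)) := by
    intro k
    by_cases hk : k ∈ M
    · obtain ⟨σ, h1, h2⟩ := exists_spectral_measure U (hv ⟨⟨k, hk⟩, ⟨0, hpos k hk⟩⟩)
      exact ⟨σ, h1, fun _ => h2⟩
    · exact ⟨0, inferInstance, fun hk' => absurd hk' hk⟩
  choose σ hσ1 hσ2 using hex
  have hτ : ∀ (i : (Σ K : M, Fin (K : ℕ))) (N : ℤ),
      ∫ z, ((z ^ N : Circle) : ℂ) ∂(σ i.1) = inner ℂ (hv i) ((U ^ N) (hv i)) := by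
    rintro ⟨⟨k, hk⟩, l⟩ N
    rw [hσ2 k hk N]
    exact c3 ⟨k, hk⟩ _ _ N
  obtain ⟨Φ, hΦ1, hΦ2, hΦ3⟩ := core U (fun i : (Σ K : M, Fin (K : ℕ)) => σ i.1) hv c2 hτ c4
  refine ⟨σ, ?_, ?_, Φ, ?_⟩
  · intro k hk
    refine ⟨hσ1 k, fun h => ?_⟩
    have h1 := hσ2 k hk 0
    rw [h, integral_zero_measure, zpow_zero] at h1
    have h2 : inner ℂ (hv ⟨⟨k, hk⟩, ⟨0, hpos k hk⟩⟩) (hv ⟨⟨k, hk⟩, ⟨0, hpos k hk⟩⟩) = (0 : ℂ) := h1.symm
    rw [inner_self_eq_zero] at h2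
    exact c6 _ h2
  · intro k hk k' hk' hne
    have hne1 : (⟨k, hk⟩ : M) ≠ ⟨k', hk'⟩ := fun h => hne (congrArg Subtype.val h)
    have hne2 : (⟨⟨k, hk⟩, ⟨0, hpos k hk⟩⟩ : (Σ K : M, Fin (K : ℕ))) ≠
        ⟨⟨k', hk'⟩, ⟨0, hpos k' hk'⟩⟩ := fun h => hne1 (congrArg Sigma.fst h)
    exact singular U (fun i : (Σ K : M, Fin (K : ℕ)) => σ i.1) hv Φ hΦ1 hΦ2 hne2 (c5 _ _ hne1)
  · intro f i
    rw [hΦ3]
    exact coeFn_zmul _ _

end Pool.Agent.Helper65.Assemble
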