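import Mathlib

set_option autoImplicit false

namespace Pool.Agent.Helper65.IsoCore

open Finset
open scoped Pointwise

section Bdy

variable {V : Type*} [Fintype V] [DecidableEq V] (adj : V → V → Prop) [DecidableRel adj]

/-- ordered boundary pairs of `A` -/
def B (A : Finset V) : Finset (V × V) :=
  univ.filter fun p => p.1 ∈ A ∧ p.2 ∉ A ∧ adj p.1 p.2

/-- number of boundary edges of `A` -/
def b (A : Finset V) : ℝ := ((B adj A).card : ℝ)

/-- fiber of a labelling -/
def fib {ι : Type*} [DecidableEq ι] (f : V → ι) (i : ι) : Finset V := univ.filter fun v => f v = i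

@[simp] lemma mem_fib {ι : Type*} [DecidableEq ι] (f : V → ι) (i : ι) (v : V) :
    v ∈ fib f i ↔ f v = i := by simp [fib]

lemma mem_B {A : Finset V} {p : V × V} : p ∈ B adj A ↔ p.1 ∈ A ∧ p.2 ∉ A ∧ adj p.1 p.2 := by
  simp [B]

lemma b_nonneg (A : Finset V) : 0 ≤ b adj A := by unfold b; positivity

lemma b_inter (A C : Finset V) : b adj (A ∩ C) ≤ b adj A + b adj C := by
  have h : B adj (A ∩ C) ⊆ B adj A ∪ B adj C := by
    intro p hp
    rw [mem_B] at hp
    rw [mem_union, mem_B, mem_B]
    obtain ⟨h1, h2, h3⟩ := hp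
    rw [mem_inter] at h1 h2
    by_cases hA : p.2 ∈ A
    · right; exact ⟨h1.2, fun hC => h2 ⟨hA, hC⟩, h3⟩
    · left; exact ⟨h1.1, hA, h3⟩
  have h2 := (card_le_card h).trans (card_union_le _ _)
  unfold b
  exact_mod_cast h2

variable {adj}

lemma b_sdiff (hsymm : ∀ u v, adj u v → adj v u) (A C : Finset V) :
    b adj (A \ C) ≤ b adj A + b adj C := by
  have h : B adj (A \ C) ⊆ B adj A ∪ (B adj C).image Prod.swap := by
    intro p hp
    rw [mem_B] at hp
    rw [mem_union, mem_B, mem_image]
    obtain ⟨h1, h2, h3⟩ := hp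
    rw [mem_sdiff] at h1 h2
    by_cases hA : p.2 ∈ A
    · right
      refine ⟨p.swap, ?_, by simp⟩
      rw [mem_B]
      refine ⟨?_, h1.2, hsymm _ _ h3⟩
      by_contra hC
      exact h2 ⟨hA, hC⟩
    · left; exact ⟨h1.1, hA, h3⟩
  have h2 := (card_le_card h).trans ((card_union_le _ _).trans (Nat.add_le_add_left card_image_le _))
  unfold b
  exact_mod_cast h2

lemma b_smul {G : Type*} [Group G] [MulAction G V]
    (hinv : ∀ (g : G) u v, adj u v → adj (g • u) (g • v)) (g : G) (A : Finset V) :
    b adj (g • A) = b adj A := by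
  have key : ∀ (g : G) (A : Finset V), b adj A ≤ b adj (g • A) := by
    intro g A
    unfold b
    have : (B adj A).card ≤ (B adj (g • A)).card := by
      apply card_le_card_of_injOn (fun p => (g • p.1, g • p.2))
      · intro p hp
        have hp' := (mem_B adj).1 hp
        refine (mem_B adj).2 ⟨?_, ?_, hinv g _ _ hp'.2.2⟩
        · exact smul_mem_smul_finset hp'.1
        · intro h
          exact hp'.2.1 ((smul_mem_smul_finset_iff g).1 h)
      · intro p _ q _ hpq
        simp only [Prod.mk.injEq] at hpq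
        exact Prod.ext (MulAction.injective g hpq.1) (MulAction.injective g hpq.2)
    exact_mod_cast this
  apply le_antisymm
  · have := key g⁻¹ (g • A)
    rwa [inv_smul_smul] at this
  · exact key g A

end Bdy

end Pool.Agent.Helper65.IsoCore
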