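import Mathlib
import Pool.Agent.Helper65.IsoCore

set_option autoImplicit false

namespace Pool.Agent.Helper65.IsoCore

open Finset
open scoped Pointwise


lemma arith1 (n h M m a ai α v : ℝ) (hn : 2 ≤ n) (hh : 0 < h) (hMle : M ≤ h) (hmM : m ≤ M)
    (hm0 : n * h < (n + 1) * m) (hMV : v * M = n * h * a) (hv : 0 < v) (h2 : a ≤ ai)
    (h1 : n * ai * h < (n + 1) * (α * m + (ai - α) * (M - m))) : v < (n + 1) * α := by
  have k1 : ai * (n * h - (n + 1) * (M - m)) < (n + 1) * α * (2 * m - M) := by
    linarith [h1, show (n + 1) * (α * m + (ai - α) * (M - m)) - n * ai * h =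
      (n + 1) * α * (2 * m - M) - ai * (n * h - (n + 1) * (M - m)) by ring]
  have k2 : 0 < 2 * m - M := by nlinarith
  have k3 : 0 ≤ n * h - (n + 1) * (M - m) := by nlinarith
  have k4 : a * (n * h - (n + 1) * (M - m)) < (n + 1) * α * (2 * m - M) :=
    (mul_le_mul_of_nonneg_right h2 k3).trans_lt k1
  have k5 : v * M * (n * h - (n + 1) * (M - m)) < n * h * ((n + 1) * α * (2 * m - M)) := by
    rw [hMV]
    have := mul_lt_mul_of_pos_left k4 (show 0 < n * h by positivity)
    linarith
  have k6 : n * h * (2 * m - M) ≤ M * (n * h - (n + 1) * (M - m)) := by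
    have : 0 ≤ (2 * (n * h) - (n + 1) * M) * (M - m) := by
      apply mul_nonneg
      · nlinarith
      · linarith
    nlinarith
  have k7 : v * (n * h * (2 * m - M)) < n * h * ((n + 1) * α * (2 * m - M)) := by
    calc v * (n * h * (2 * m - M)) ≤ v * (M * (n * h - (n + 1) * (M - m))) :=
          mul_le_mul_of_nonneg_left k6 hv.le
      _ = v * M * (n * h - (n + 1) * (M - m)) := by ring
      _ < _ := k5
  have k8 : (0:ℝ) < n * h * (2 * m - M) := by positivity
  by_contra hc
  push Not at hc
  have := mul_le_mul_of_nonneg_right hc k8.le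
  linarith

lemma arith2 (h M m a α W v : ℝ) (hh : 0 < h) (hW : 0 < W)
    (hMV : v * M = 2 * h * a) (h3 : 2 * W = v) (hkey : m * W = h * α)
    (h1 : 2 * a * h < (2 + 1) * (α * m + (a - α) * (M - m))) :
    a * v < 3 * (α ^ 2 + (a - α) ^ 2) := by
  have hMW : M * W = h * a := by
    rw [← h3] at hMV; linarith
  have h4 : 2 * a * h * W < 3 * (α * (m * W) + (a - α) * (M * W - m * W)) := by
    have := mul_lt_mul_of_pos_right h1 hW
    linarith
  rw [hkey, hMW] at h4
  have h5 : 2 * a * W < 3 * (α ^ 2 + (a - α) ^ 2) := by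
    by_contra hc
    push Not at hc
    have := mul_le_mul_of_nonneg_left hc hh.le
    linarith
  rw [← h3]; linarith

section Split
variable {V : Type*} [Fintype V] [DecidableEq V] {adj : V → V → Prop} [DecidableRel adj]

lemma split {ι : Type*} [DecidableEq ι] (f : V → ι) (K : ℝ)
    (hK : ∀ l : V → Option ι, Function.Surjective l →
      ∃ o, K * ((fib l o).card : ℝ) ≤ b adj (fib l o))
    (S : Finset V) (hS : S.Nonempty) (hS' : ∀ i, ∃ v, v ∉ S ∧ f v = i) :
    K * (S.card : ℝ) ≤ b adj S ∨
      ∃ i, K * ((fib f i \ S).card : ℝ) ≤ b adj (fib f i \ S) := by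
  obtain ⟨o, ho⟩ := hK (fun v => if v ∈ S then none else some (f v)) (by
    rintro (_ | i)
    · obtain ⟨v, hv⟩ := hS
      exact ⟨v, by simp [hv]⟩
    · obtain ⟨v, hv, rfl⟩ := hS' i
      exact ⟨v, by simp [hv]⟩)
  rcases o with _ | i
  · left
    have : fib (fun v => if v ∈ S then none else some (f v)) none = S := by
      ext v; simp
    rwa [this] at ho
  · right
    refine ⟨i, ?_⟩
    have : fib (fun v => if v ∈ S then none else some (f v)) (some i) = fib f i \ S := by
      ext v
      simp only [mem_fib, mem_sdiff]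
      by_cases h : v ∈ S <;> simp [h]
    rwa [this] at ho

end Split

section Blocks

variable {G V ι : Type*} [Group G] [Fintype G] [DecidableEq G] [MulAction G V]
  [MulAction.IsPretransitive G V] [Fintype V] [DecidableEq V] [Fintype ι] [DecidableEq ι]

lemma card_G_mem (A : Finset V) (v : V) :
    Fintype.card V * (univ.filter fun g : G => v ∈ g • A).card = Fintype.card G * A.card := by
  have hconst : ∀ u : V, (univ.filter fun g : G => u ∈ g • A).card
      = (univ.filter fun g : G => v ∈ g • A).card := by
    intro u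
    obtain ⟨k, rfl⟩ := MulAction.exists_smul_eq G u v
    apply card_bij (fun g _ => k * g)
    · intro g hg
      simp only [mem_filter, mem_univ, true_and] at hg ⊢
      rw [mul_smul]
      exact smul_mem_smul_finset hg
    · intro g _ g' _ h
      exact mul_left_cancel h
    · intro g hg
      simp only [mem_filter, mem_univ, true_and] at hg
      refine ⟨k⁻¹ * g, ?_, by simp⟩
      simp only [mem_filter, mem_univ, true_and]
      rw [mul_smul]
      have := smul_mem_smul_finset (a := k⁻¹) hg
      rwa [inv_smul_smul] at this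
  have h1 : ∑ u : V, (univ.filter fun g : G => u ∈ g • A).card
      = Fintype.card V * (univ.filter fun g : G => v ∈ g • A).card := by
    rw [sum_congr rfl (fun u _ => hconst u)]
    simp
  have h2 : ∑ u : V, (univ.filter fun g : G => u ∈ g • A).card
      = ∑ g : G, (g • A).card := by
    simp only [card_filter]
    rw [sum_comm]
    apply sum_congr rfl
    intro g _
    rw [← card_filter]
    congr 1
    ext u
    simp
  rw [← h1, h2]
  simp


/-- |gA ∩ g'A| = |A ∩ g⁻¹g'A| -/
lemma card_smul_inter (A : Finset V) (g g' : G) :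
    (g • A ∩ g' • A).card = (A ∩ (g⁻¹ * g') • A).card := by
  rw [← card_smul_finset g (A ∩ (g⁻¹ * g') • A), smul_finset_inter, smul_smul]
  simp

set_option maxHeartbeats 4000000 in
theorem blocks (f : V → ι) (i0 : ι) (hn : 2 ≤ Fintype.card ι)
    (hpos : 0 < (fib f i0).card)
    (hmin : ∀ i, (fib f i0).card ≤ (fib f i).card)
    (hD : ∀ g : G, ¬ (((fib f i0).card : ℝ) ≤
        ((Fintype.card ι : ℝ) + 1) * ((fib f i0 ∩ g • fib f i0).card : ℝ) ∧
        ((fib f i0).card : ℝ) ≤
        ((Fintype.card ι : ℝ) + 1) * ((fib f i0 \ g • fib f i0).card : ℝ)))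
    (hM : ∀ g : G, ∃ j, (Fintype.card ι : ℝ) * (fib f j).card <
        ((Fintype.card ι : ℝ) + 1) * ((g • fib f i0 ∩ fib f j).card : ℝ)) :
    ∃ w : V → ι, Function.Surjective w ∧
      (∀ (g : G) u v, w u = w v → w (g • u) = w (g • v)) ∧
      (∀ i, (Fintype.card ι : ℝ) * (fib w i).card = Fintype.card V) ∧
      (∀ i, (Fintype.card V : ℝ) < ((Fintype.card ι : ℝ) + 1) * (fib f i ∩ fib w i).card) ∧
      (Fintype.card ι = 2 → ((fib f i0).card : ℝ) * Fintype.card V <
        3 * (((fib f i0 ∩ fib w i0).card : ℝ) ^ 2 +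
          ((fib f i0).card - (fib f i0 ∩ fib w i0).card : ℝ) ^ 2)) := by
  classical
  set A := fib f i0 with hA
  set n : ℝ := (Fintype.card ι : ℝ) with hndef
  have hn' : (2 : ℝ) ≤ n := by rw [hndef]; exact_mod_cast hn
  set a : ℝ := (A.card : ℝ) with ha
  have ha0 : 0 < a := by rw [ha]; exact_mod_cast hpos
  -- cardinality of A as a sum
  have hsplitA : ∀ C : Finset V, (A.card : ℝ) = ((A ∩ C).card : ℝ) + ((A \ C).card : ℝ) := by
    intro C
    have := card_inter_add_card_sdiff A C
    exact_mod_cast this.symm
  -- dichotomy in usable form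
  have hD' : ∀ g : G, a ≤ (n + 1) * ((A ∩ g • A).card : ℝ) →
      n * a < (n + 1) * ((A ∩ g • A).card : ℝ) := by
    intro g hg
    have h1 := hD g
    have h2 := hsplitA (g • A)
    by_contra hcon
    push Not at hcon
    apply h1
    refine ⟨hg, ?_⟩
    rw [← ha] at h2
    nlinarith
  -- the subgroup H
  have hHmul : ∀ g h : G, n * a < (n + 1) * ((A ∩ g • A).card : ℝ) →
      n * a < (n + 1) * ((A ∩ h • A).card : ℝ) →
      n * a < (n + 1) * ((A ∩ (g * h) • A).card : ℝ) := by
    intro g h hg hh
    apply hD'
    have hsub : A \ (g * h) • A ⊆ (A \ g • A) ∪ (g • A \ (g * h) • A) := by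
      intro v hv
      rw [mem_sdiff] at hv
      rw [mem_union, mem_sdiff, mem_sdiff]
      by_cases hvg : v ∈ g • A
      · right; exact ⟨hvg, hv.2⟩
      · left; exact ⟨hv.1, hvg⟩
    have hc : ((A \ (g * h) • A).card : ℝ) ≤ ((A \ g • A).card : ℝ) + ((A \ h • A).card : ℝ) := by
      have h1 : (g • A \ (g * h) • A).card = (A \ h • A).card := by
        rw [mul_smul, ← smul_finset_sdiff, card_smul_finset]
      have h2 := (card_le_card hsub).trans (card_union_le _ _)
      rw [h1] at h2
      exact_mod_cast h2
    have e1 := hsplitA (g • A)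
    have e2 := hsplitA (h • A)
    have e3 := hsplitA ((g * h) • A)
    rw [← ha] at e1 e2 e3
    nlinarith
  have hHone : n * a < (n + 1) * ((A ∩ (1 : G) • A).card : ℝ) := by
    rw [one_smul, inter_self, ← ha]; nlinarith
  have hHinv : ∀ g : G, n * a < (n + 1) * ((A ∩ g • A).card : ℝ) →
      n * a < (n + 1) * ((A ∩ g⁻¹ • A).card : ℝ) := by
    intro g hg
    have : (A ∩ g⁻¹ • A).card = (A ∩ g • A).card := by
      have := card_smul_inter A g 1
      rw [mul_one, one_smul, inter_comm] at this
      exact this.symm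
    rw [this]; exact hg
  let H : Subgroup G :=
    { carrier := {g | n * a < (n + 1) * ((A ∩ g • A).card : ℝ)}
      mul_mem' := fun {g h} hg hh => hHmul g h hg hh
      one_mem' := hHone
      inv_mem' := fun {g} hg => hHinv g hg }
  have hHmem : ∀ g : G, g ∈ H ↔ n * a < (n + 1) * ((A ∩ g • A).card : ℝ) := fun g => Iff.rfl
  set Hs : Finset G := univ.filter fun g => g ∈ H with hHs
  -- the index map
  choose j hj using hM
  have hjsame : ∀ g g', j g = j g' → g⁻¹ * g' ∈ H := by
    intro g g' h
    rw [hHmem]
    apply hD'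
    rw [← card_smul_inter]
    have h1 := hj g
    have h2 := hj g'
    rw [← h] at h2
    set F := fib f (j g) with hF
    have hFa : a ≤ (F.card : ℝ) := by rw [ha]; exact_mod_cast hmin (j g)
    have hinc : ((g • A ∩ F).card : ℝ) + ((g' • A ∩ F).card : ℝ) ≤
        ((g • A ∩ g' • A).card : ℝ) + (F.card : ℝ) := by
      have e1 := card_union_add_card_inter (g • A ∩ F) (g' • A ∩ F)
      have e2 : ((g • A ∩ F) ∪ (g' • A ∩ F)).card ≤ F.card := by
        apply card_le_card
        intro v hv
        rw [mem_union, mem_inter, mem_inter] at hv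
        rcases hv with hv | hv
        · exact hv.2
        · exact hv.2
      have e3 : ((g • A ∩ F) ∩ (g' • A ∩ F)).card ≤ (g • A ∩ g' • A).card := by
        apply card_le_card
        intro v hv
        simp only [mem_inter] at hv ⊢
        exact ⟨hv.1.1, hv.2.1⟩
      have : (g • A ∩ F).card + (g' • A ∩ F).card ≤ (g • A ∩ g' • A).card + F.card := by omega
      exact_mod_cast this
    have h3 : (n - 1) * (F.card : ℝ) ≤ (n + 1) * ((g • A ∩ g' • A).card : ℝ) := by nlinarith
    nlinarith
  -- fibers of j
  set Φ : ι → Finset G := fun i => univ.filter fun g => j g = i with hΦ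
  have hmemΦ : ∀ i g, g ∈ Φ i ↔ j g = i := by intro i g; simp [hΦ]
  have hΦle : ∀ i, (Φ i).card ≤ Hs.card := by
    intro i
    rcases (Φ i).eq_empty_or_nonempty with h | ⟨g0, hg0⟩
    · rw [h]; simp
    · apply card_le_card_of_injOn (fun g => g0⁻¹ * g)
      · intro g hg
        have hg' := (hmemΦ i g).1 hg
        have hg0' := (hmemΦ i g0).1 hg0
        simp only [hHs, coe_filter, mem_univ, true_and, Set.mem_ofPred_eq]
        exact hjsame g0 g (hg0'.trans hg'.symm)
      · intro g _ g' _ h
        exact mul_left_cancel h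
  have hsumΦ : ∑ i, (Φ i).card = Fintype.card G := by
    rw [hΦ]
    exact (card_eq_sum_card_fiberwise (f := j) (s := univ) (t := univ) (by simp)).symm
  have hGle : Fintype.card G ≤ Fintype.card ι * Hs.card := by
    rw [← hsumΦ]
    calc ∑ i, (Φ i).card ≤ ∑ _i : ι, Hs.card := sum_le_sum fun i _ => hΦle i
      _ = Fintype.card ι * Hs.card := by simp
  -- sum of all parts
  have hsumA : ∑ i, (fib f i).card = Fintype.card V := by
    exact (card_eq_sum_card_fiberwise (f := f) (s := univ) (t := univ) (by simp)).symm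
  have hna : n * a ≤ (Fintype.card V : ℝ) := by
    have : Fintype.card ι * A.card ≤ Fintype.card V := by
      rw [← hsumA]
      calc Fintype.card ι * A.card = ∑ _i : ι, A.card := by simp
        _ ≤ ∑ i, (fib f i).card := sum_le_sum fun i _ => hmin i
    rw [hndef, ha]; exact_mod_cast this
  -- number of g with v ∈ gA
  have hMv : ∀ v : V, (Fintype.card V : ℝ) * ((univ.filter fun g : G => v ∈ g • A).card : ℝ)
      = Fintype.card G * a := by
    intro v
    rw [ha]
    exact_mod_cast card_G_mem (G := G) A v
  have hVpos : (0 : ℝ) < Fintype.card V := by nlinarith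
  -- averaging
  have havg : (Fintype.card V : ℝ) * ∑ g : G, ((A ∩ g • A).card : ℝ) = Fintype.card G * a * a := by
    have h1 : ∑ g : G, ((A ∩ g • A).card : ℝ)
        = ∑ v ∈ A, ((univ.filter fun g : G => v ∈ g • A).card : ℝ) := by
      have : ∑ g : G, (A ∩ g • A).card = ∑ v ∈ A, (univ.filter fun g : G => v ∈ g • A).card := by
        have e1 : ∀ g : G, (A ∩ g • A).card = ∑ v ∈ A, if v ∈ g • A then 1 else 0 := by
          intro g
          rw [← card_filter]
          congr 1
        simp only [e1, card_filter]
        rw [sum_comm]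
      exact_mod_cast this
    rw [h1, mul_sum, sum_congr rfl (fun v _ => hMv v)]
    rw [sum_const, nsmul_eq_mul, ← ha]
    ring
  have hHcardpos : 0 < Hs.card := by
    apply card_pos.2
    exact ⟨1, by simp [hHs, H.one_mem]⟩
  have hHle : n * n * (Hs.card : ℝ) < (n + 1) * (Fintype.card G : ℝ) := by
    have h1 : n * a * (Hs.card : ℝ) < (n + 1) * ∑ g : G, ((A ∩ g • A).card : ℝ) := by
      have e1 : n * a * (Hs.card : ℝ) < ∑ g ∈ Hs, (n + 1) * ((A ∩ g • A).card : ℝ) := by
        have : ∑ _g ∈ Hs, n * a < ∑ g ∈ Hs, (n + 1) * ((A ∩ g • A).card : ℝ) := by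
          apply sum_lt_sum_of_nonempty (card_pos.1 hHcardpos)
          intro g hg
          have : g ∈ H := by simpa [hHs] using hg
          exact (hHmem g).1 this
        rw [sum_const, nsmul_eq_mul] at this
        linarith
      rw [mul_sum]
      refine e1.trans_le ?_
      apply sum_le_sum_of_subset_of_nonneg (subset_univ _)
      intro g _ _
      positivity
    -- multiply by |V|
    have h2 : (Fintype.card V : ℝ) * (n * a * (Hs.card : ℝ)) <
        (n + 1) * (Fintype.card G * a * a) := by
      calc (Fintype.card V : ℝ) * (n * a * (Hs.card : ℝ))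
          < (Fintype.card V : ℝ) * ((n + 1) * ∑ g : G, ((A ∩ g • A).card : ℝ)) := by
            exact mul_lt_mul_of_pos_left h1 hVpos
        _ = (n + 1) * (Fintype.card G * a * a) := by rw [← havg]; ring
    have h3 : (Fintype.card V : ℝ) * (n * (Hs.card : ℝ)) < (n + 1) * (Fintype.card G * a) := by
      by_contra hc
      push Not at hc
      have := mul_le_mul_of_nonneg_left hc ha0.le
      nlinarith
    -- use n a ≤ |V|
    have h4 : (Fintype.card V : ℝ) * (n * n * (Hs.card : ℝ)) <
        (n + 1) * Fintype.card G * Fintype.card V := by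
      have h5 : n * ((Fintype.card V : ℝ) * (n * (Hs.card : ℝ))) <
          n * ((n + 1) * (Fintype.card G * a)) := by
        exact mul_lt_mul_of_pos_left h3 (by linarith)
      have h6 : (n + 1) * (Fintype.card G : ℝ) * (n * a) ≤
          (n + 1) * (Fintype.card G : ℝ) * Fintype.card V :=
        mul_le_mul_of_nonneg_left hna (by positivity)
      nlinarith
    by_contra hc
    push Not at hc
    have := mul_le_mul_of_nonneg_left hc hVpos.le
    nlinarith
  -- |G| = n |H|
  have hGeq : Fintype.card G = Fintype.card ι * Hs.card := by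
    have hHcard : Hs.card = Nat.card H := by
      rw [hHs, Nat.card_eq_fintype_card, Fintype.card_subtype]
    have hLag : Nat.card H * H.index = Fintype.card G := by
      rw [Subgroup.card_mul_index, Nat.card_eq_fintype_card]
    rw [← hHcard] at hLag
    have h1 : H.index ≤ Fintype.card ι := by
      by_contra hc
      push Not at hc
      have : Fintype.card ι * Hs.card < Hs.card * H.index := by
        rw [mul_comm]
        exact Nat.mul_lt_mul_of_pos_left hc hHcardpos
      omega
    have h2 : Fintype.card ι ≤ H.index := by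
      by_contra hc
      push Not at hc
      have h3 : (H.index : ℝ) + 1 ≤ n := by
        rw [hndef]; exact_mod_cast hc
      have h4 : (Fintype.card G : ℝ) = (Hs.card : ℝ) * (H.index : ℝ) := by
        exact_mod_cast hLag.symm
      rw [h4] at hHle
      have h5 : (0 : ℝ) < (Hs.card : ℝ) := by exact_mod_cast hHcardpos
      have h6 : (n + 1) * ((Hs.card : ℝ) * (H.index : ℝ)) ≤ (n + 1) * ((Hs.card : ℝ) * (n - 1)) := by
        apply mul_le_mul_of_nonneg_left _ (by linarith)
        apply mul_le_mul_of_nonneg_left _ h5.le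
        linarith
      nlinarith
    have h3 : H.index = Fintype.card ι := le_antisymm h1 h2
    rw [← hLag, h3, mul_comm]
  have hΦcard : ∀ i, (Φ i).card = Hs.card := by
    have hs : ∑ i, (Φ i).card = ∑ _i : ι, Hs.card := by
      rw [hsumΦ, hGeq]; simp
    intro i
    exact (sum_eq_sum_iff_of_le fun i _ => hΦle i).1 hs i (mem_univ i)
  -- cosets
  have hcoset : ∀ x y : G, x⁻¹ * y ∈ H → j x = j y := by
    intro x y hxy
    have himg : (Φ (j x)).image (fun g => x⁻¹ * g) = Hs := by
      apply eq_of_subset_of_card_le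
      · intro g hg
        rw [mem_image] at hg
        obtain ⟨g', hg', rfl⟩ := hg
        simp only [hHs, mem_filter, mem_univ, true_and]
        exact hjsame x g' ((hmemΦ _ _).1 hg').symm
      · rw [card_image_of_injective _ (fun g g' h => mul_left_cancel h), hΦcard]
    have : x⁻¹ * y ∈ (Φ (j x)).image (fun g => x⁻¹ * g) := by
      rw [himg]; simp only [hHs, mem_filter, mem_univ, true_and]; exact hxy
    rw [mem_image] at this
    obtain ⟨g', hg', he⟩ := this
    have : g' = y := mul_left_cancel he
    rw [this] at hg'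
    exact ((hmemΦ _ _).1 hg').symm
  have hjiff : ∀ x y : G, j x = j y ↔ x⁻¹ * y ∈ H := fun x y => ⟨hjsame x y, hcoset x y⟩
  have hjtrans : ∀ k x y : G, j x = j y ↔ j (k * x) = j (k * y) := by
    intro k x y
    rw [hjiff, hjiff]
    have : (k * x)⁻¹ * (k * y) = x⁻¹ * y := by group
    rw [this]
  have hjsurj : Function.Surjective j := by
    intro i
    have : 0 < (Φ i).card := by rw [hΦcard]; exact hHcardpos
    obtain ⟨g, hg⟩ := card_pos.1 this
    exact ⟨g, (hmemΦ i g).1 hg⟩
  set h : ℝ := (Hs.card : ℝ) with hh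
  have hhpos : 0 < h := by rw [hh]; exact_mod_cast hHcardpos
  have hGeq' : (Fintype.card G : ℝ) = n * h := by
    rw [hndef, hh]; exact_mod_cast hGeq
  -- N i v
  let N : ι → V → ℝ := fun i v => ((univ.filter fun g : G => j g = i ∧ v ∈ g • A).card : ℝ)
  have hN0 : ∀ i v, 0 ≤ N i v := fun i v => by positivity
  have hNsum : ∀ v, (Fintype.card V : ℝ) * ∑ i, N i v = n * h * a := by
    intro v
    have h1 : ∑ i, N i v = ((univ.filter fun g : G => v ∈ g • A).card : ℝ) := by
      have : ∑ i, (univ.filter fun g : G => j g = i ∧ v ∈ g • A).card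
          = (univ.filter fun g : G => v ∈ g • A).card := by
        rw [card_eq_sum_card_fiberwise (f := j) (s := univ.filter fun g : G => v ∈ g • A)
          (t := univ) (by simp)]
        apply sum_congr rfl
        intro i _
        rw [filter_filter]
        congr 1
        ext g
        simp [and_comm]
      show ∑ i, (((univ.filter fun g : G => j g = i ∧ v ∈ g • A).card : ℕ) : ℝ) = _
      exact_mod_cast this
    rw [h1, hMv, hGeq']
  have hNequiv : ∀ (k g : G) (v : V), N (j (k * g)) (k • v) = N (j g) v := by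
    intro k g v
    have : (univ.filter fun g' : G => j g' = j (k * g) ∧ k • v ∈ g' • A).card
        = (univ.filter fun g' : G => j g' = j g ∧ v ∈ g' • A).card := by
      symm
      apply card_bij (fun g' _ => k * g')
      · intro g' hg'
        simp only [mem_filter, mem_univ, true_and] at hg' ⊢
        refine ⟨(hjtrans k g' g).1 hg'.1, ?_⟩
        rw [mul_smul]
        exact smul_mem_smul_finset hg'.2
      · intro g' _ g'' _ e
        exact mul_left_cancel e
      · intro g' hg'
        simp only [mem_filter, mem_univ, true_and] at hg'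
        refine ⟨k⁻¹ * g', ?_, by simp⟩
        simp only [mem_filter, mem_univ, true_and]
        constructor
        · rw [hjtrans k]; simpa using hg'.1
        · rw [mul_smul]
          have := smul_mem_smul_finset (a := k⁻¹) hg'.2
          rwa [inv_smul_smul] at this
    show ((_ : ℕ) : ℝ) = ((_ : ℕ) : ℝ)
    exact_mod_cast this
  -- sum over a set
  have hNset : ∀ (i : ι) (C : Finset V), ∑ v ∈ C, N i v = ∑ g ∈ Φ i, ((g • A ∩ C).card : ℝ) := by
    intro i C
    have : ∑ v ∈ C, (univ.filter fun g : G => j g = i ∧ v ∈ g • A).card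
        = ∑ g ∈ Φ i, (g • A ∩ C).card := by
      have e1 : ∀ v, (univ.filter fun g : G => j g = i ∧ v ∈ g • A).card
          = ∑ g ∈ Φ i, if v ∈ g • A then 1 else 0 := by
        intro v
        rw [← card_filter, hΦ]
        congr 1
        ext g; simp
      have e2 : ∀ g : G, (g • A ∩ C).card = ∑ v ∈ C, if v ∈ g • A then 1 else 0 := by
        intro g
        rw [← card_filter]
        congr 1
        ext v; simp [and_comm]
      rw [sum_congr rfl (fun v _ => e1 v), sum_congr rfl (fun g _ => e2 g), sum_comm]
    show ∑ v ∈ C, ((_ : ℕ) : ℝ) = _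
    exact_mod_cast this
  have hNA : ∀ i, n * (fib f i).card * h < (n + 1) * ∑ v ∈ fib f i, N i v := by
    intro i
    rw [hNset, mul_sum]
    have : ∑ _g ∈ Φ i, n * ((fib f i).card : ℝ) <
        ∑ g ∈ Φ i, (n + 1) * ((g • A ∩ fib f i).card : ℝ) := by
      apply sum_lt_sum_of_nonempty (card_pos.1 (by rw [hΦcard]; exact hHcardpos))
      intro g hg
      have := hj g
      rwa [(hmemΦ i g).1 hg] at this
    rw [sum_const, nsmul_eq_mul, hΦcard, ← hh] at this
    linarith
  -- a good vertex
  have hgood : ∃ v i, n * h < (n + 1) * N i v := by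
    have h1 := hNA i0
    by_contra hc
    push Not at hc
    have : (n + 1) * ∑ v ∈ fib f i0, N i0 v ≤ n * (fib f i0).card * h := by
      rw [mul_sum]
      calc ∑ v ∈ fib f i0, (n + 1) * N i0 v ≤ ∑ _v ∈ fib f i0, n * h :=
            sum_le_sum fun v _ => hc v i0
        _ = n * (fib f i0).card * h := by rw [sum_const, nsmul_eq_mul]; ring
    linarith
  obtain ⟨v0, j0, hv0⟩ := hgood
  obtain ⟨g0, hg0⟩ := hjsurj j0
  set m : ℝ := N j0 v0 with hm
  have hex : ∀ v : V, ∃ i, N i v = m ∧ ∃ k : G, k • v0 = v ∧ i = j (k * g0) := by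
    intro v
    obtain ⟨k, hk⟩ := MulAction.exists_smul_eq G v0 v
    refine ⟨j (k * g0), ?_, k, hk, rfl⟩
    rw [← hk, hNequiv, hg0]
  choose w hw hwk using hex
  -- M
  set M : ℝ := ∑ i, N i v0 with hMdef
  have hMV : (Fintype.card V : ℝ) * M = n * h * a := hNsum v0
  have hMle : M ≤ h := by
    by_contra hc
    push Not at hc
    have h1 := mul_lt_mul_of_pos_left hc hVpos
    rw [hMV] at h1
    have h2 := mul_le_mul_of_nonneg_right hna hhpos.le
    nlinarith
  have hMeq : ∀ v, ∑ i, N i v = M := by
    intro v
    have h1 := hNsum v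
    rw [← hMV] at h1
    exact mul_left_cancel₀ hVpos.ne' h1
  have hmM : m ≤ M := by
    rw [hm, hMdef]
    exact single_le_sum (f := fun i => N i v0) (fun i _ => hN0 i v0) (mem_univ j0)
  have hother : ∀ v i, i ≠ w v → N i v ≤ M - m := by
    intro v i hi
    have h1 : N i v + N (w v) v ≤ ∑ i, N i v := by
      rw [← sum_pair hi (f := fun i => N i v)]
      exact sum_le_sum_of_subset_of_nonneg (subset_univ _) (fun i _ _ => hN0 i v)
    rw [hMeq, hw] at h1
    linarith
  have huniq : ∀ v i, N i v = m → i = w v := by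
    intro v i hi
    by_contra hne
    have := hother v i hne
    rw [hi] at this
    nlinarith
  have hwequiv : ∀ (k g : G) v, j g = w v → w (k • v) = j (k * g) := by
    intro k g v hg
    symm
    apply huniq
    rw [hNequiv, hg, hw]
  have hwinv : ∀ (g : G) u v, w u = w v → w (g • u) = w (g • v) := by
    intro g u v huv
    obtain ⟨g', hg'⟩ := hjsurj (w u)
    rw [hwequiv g g' u hg', hwequiv g g' v (hg'.trans huv)]
  have hwsurj : Function.Surjective w := by
    intro i
    obtain ⟨g', hg'⟩ := hjsurj i
    obtain ⟨g'', hg''⟩ := hjsurj (w v0)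
    refine ⟨(g' * g''⁻¹) • v0, ?_⟩
    rw [hwequiv _ g'' v0 hg'']
    simpa using hg'
  -- fibers of w have equal size
  have hfible : ∀ i i', (fib w i).card ≤ (fib w i').card := by
    intro i i'
    obtain ⟨g1, hg1⟩ := hjsurj i
    obtain ⟨g2, hg2⟩ := hjsurj i'
    apply card_le_card_of_injOn (fun v => (g2 * g1⁻¹) • v)
    · intro v hv
      have hv' : w v = i := by simpa using hv
      have : w ((g2 * g1⁻¹) • v) = i' := by
        rw [hwequiv _ g1 v (hg1.trans hv'.symm)]
        simpa using hg2
      simpa using this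
    · intro u _ v _ e
      exact MulAction.injective _ e
  have hsumW : ∑ i, (fib w i).card = Fintype.card V := by
    exact (card_eq_sum_card_fiberwise (f := w) (s := univ) (t := univ) (by simp)).symm
  have hfibcard : ∀ i, n * ((fib w i).card : ℝ) = Fintype.card V := by
    intro i
    have : Fintype.card ι * (fib w i).card = Fintype.card V := by
      rw [← hsumW]
      calc Fintype.card ι * (fib w i).card = ∑ _i : ι, (fib w i).card := by simp
        _ = ∑ i, (fib w i).card := by
          apply sum_congr rfl
          intro i' _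
          exact le_antisymm (hfible _ _) (hfible _ _)
    rw [hndef]; exact_mod_cast this
  -- main inequality for each i
  have hmain : ∀ i, n * (fib f i).card * h < (n + 1) *
      (((fib f i ∩ fib w i).card : ℝ) * m +
        ((fib f i).card - (fib f i ∩ fib w i).card : ℝ) * (M - m)) := by
    intro i
    refine (hNA i).trans_le ?_
    apply mul_le_mul_of_nonneg_left _ (by linarith)
    rw [← sum_inter_add_sum_sdiff (fib f i) (fib w i)]
    have e1 : ∑ v ∈ fib f i ∩ fib w i, N i v = ((fib f i ∩ fib w i).card : ℝ) * m := by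
      rw [← nsmul_eq_mul, ← sum_const]
      apply sum_congr rfl
      intro v hv
      rw [mem_inter, mem_fib, mem_fib] at hv
      rw [← hv.2, hw]
    have e2 : ∑ v ∈ fib f i \ fib w i, N i v ≤
        ((fib f i).card - (fib f i ∩ fib w i).card : ℝ) * (M - m) := by
      have e3 : ((fib f i).card - (fib f i ∩ fib w i).card : ℝ) = ((fib f i \ fib w i).card : ℝ) := by
        have := card_inter_add_card_sdiff (fib f i) (fib w i)
        have h' : ((fib f i ∩ fib w i).card : ℝ) + ((fib f i \ fib w i).card : ℝ)
            = ((fib f i).card : ℝ) := by exact_mod_cast this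
        linarith
      rw [e3, ← nsmul_eq_mul, ← sum_const]
      apply sum_le_sum
      intro v hv
      rw [mem_sdiff, mem_fib, mem_fib] at hv
      apply hother
      exact fun e => hv.2 e.symm
    linarith
  refine ⟨w, hwsurj, hwinv, hfibcard, ?_, ?_⟩
  · intro i
    have h1 := hmain i
    have h2 : a ≤ ((fib f i).card : ℝ) := by rw [ha]; exact_mod_cast hmin i
    set α : ℝ := ((fib f i ∩ fib w i).card : ℝ) with hα
    set ai : ℝ := ((fib f i).card : ℝ) with hai
    set v : ℝ := (Fintype.card V : ℝ) with hv
    have hm0 : n * h < (n + 1) * m := hv0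
    exact arith1 n h M m a ai α v hn' hhpos hMle hmM hm0 hMV hVpos h2 h1
  · intro h2
    have hn2 : n = 2 := by rw [hndef, h2]; norm_num
    -- j 1 = i0
    have hj1 : j 1 = i0 := by
      have h1 := hj 1
      rw [one_smul] at h1
      by_contra hne
      have : A ∩ fib f (j 1) = ∅ := by
        ext v
        rw [mem_inter, hA, mem_fib, mem_fib]
        simp only [notMem_empty, iff_false, not_and]
        intro e1 e2
        exact hne (e2.symm.trans e1)
      rw [this, card_empty, Nat.cast_zero, mul_zero] at h1
      have h0 : (0:ℝ) ≤ n * ((fib f (j 1)).card : ℝ) :=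
        mul_nonneg (by linarith) (Nat.cast_nonneg _)
      exact absurd h1 (not_lt.2 h0)
    have hkey : m * ((fib w i0).card : ℝ) = h * ((A ∩ fib w i0).card : ℝ) := by
      have e0 : ∀ v ∈ fib w i0, N i0 v = m := by
        intro v hv
        rw [mem_fib] at hv
        rw [← hv, hw]
      have e1 : ∑ v ∈ fib w i0, N i0 v = ((fib w i0).card : ℝ) * m := by
        rw [sum_congr rfl e0, sum_const, nsmul_eq_mul]
      rw [mul_comm m, ← e1, hNset]
      have e2 : ∀ g ∈ Φ i0, ((g • A ∩ fib w i0).card : ℝ) = ((A ∩ fib w i0).card : ℝ) := by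
        intro g hg
        have hg' : j g = i0 := (hmemΦ _ _).1 hg
        have hgw : g • fib w i0 = fib w i0 := by
          apply eq_of_subset_of_card_le
          · intro v hv
            obtain ⟨u, hu, rfl⟩ := mem_smul_finset.1 hv
            rw [mem_fib] at hu ⊢
            rw [hwequiv g 1 u (hj1.trans hu.symm), mul_one, hg']
          · rw [card_smul_finset]
        have : (g • A ∩ fib w i0).card = (A ∩ fib w i0).card := by
          rw [← card_smul_finset g (A ∩ fib w i0), smul_finset_inter, hgw]
        exact_mod_cast this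
      rw [sum_congr rfl e2, sum_const, nsmul_eq_mul, hΦcard]
    have h1 := hmain i0
    have h3 := hfibcard i0
    rw [← hA, ← ha] at h1
    set α : ℝ := ((A ∩ fib w i0).card : ℝ) with hα
    set W : ℝ := ((fib w i0).card : ℝ) with hW
    set v : ℝ := (Fintype.card V : ℝ) with hv
    rw [hn2] at h1 h3 hMV
    have hWpos : 0 < W := by linarith
    exact arith2 h M m a α W v hhpos hWpos hMV h3 hkey h1

end Blocks
end Pool.Agent.Helper65.IsoCore
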