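import Mathlib
import Pool.Agent.Helper65.IsoCore2

set_option autoImplicit false

namespace Pool.Agent.Helper65.IsoCore

open Finset
open scoped Pointwise

lemma arith3 (W a α : ℝ) (hW : 0 < W) (h1 : a ≤ W) (h2 : α ≤ a) (h3 : 2 * W < 3 * α)
    (h4 : a * (2 * W) < 3 * (α ^ 2 + (a - α) ^ 2)) : 4 * ((W - α) + (a - α)) < 2 * W := by
  by_contra hc
  push Not at hc
  obtain ⟨u, hu⟩ : ∃ u, u = W - α := ⟨_, rfl⟩
  obtain ⟨t, ht⟩ : ∃ t, t = a - α := ⟨_, rfl⟩
  have e1 : α = W - u := by linarith
  have e2 : a = W - u + t := by linarith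
  subst e1
  subst e2
  have s1 : 0 ≤ u - t := by linarith
  have s2 : 0 ≤ W - 3 * u := by linarith
  have s3 : 0 ≤ 2 * (u + t) - W := by linarith
  have s4 : 0 ≤ t := by linarith
  nlinarith [mul_nonneg s1 s2, mul_nonneg s2 s3, mul_nonneg s1 s3, mul_nonneg hW.le s1,
    mul_nonneg hW.le s2, mul_nonneg hW.le s3, mul_nonneg s4 s3, mul_nonneg s4 s2]

lemma arith4 (n x K c D v : ℝ) (hn : 2 ≤ n) (hx : 0 ≤ x) (hxc : x ≤ c) (hK : 2 * (n + 1) * x < K)
    (hD : 0 < D) (hDv : 4 * D < v) (h : 2 * (K - c) * D + c * v - 2 * c * D ≤ x * v) : False := by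
  have h1 : (c - x) * v ≤ 2 * (2 * c - K) * D := by linarith
  have h2 : 2 * (2 * c - K) * D < 4 * (c - (n + 1) * x) * D := by
    apply mul_lt_mul_of_pos_right _ hD
    linarith
  have h3 : 0 ≤ (c - x) * v := mul_nonneg (by linarith) (by linarith)
  have h4 : 0 < (c - (n + 1) * x) * D := by linarith
  have h5 : 0 < c - (n + 1) * x := by
    by_contra hc
    push Not at hc
    have := mul_nonpos_of_nonpos_of_nonneg hc hD.le
    linarith
  have h6 : (c - (n + 1) * x) * (4 * D) ≤ (c - (n + 1) * x) * v :=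
    mul_le_mul_of_nonneg_left hDv.le h5.le
  have h7 : (c - (n + 1) * x) * v ≤ (c - x) * v := by
    apply mul_le_mul_of_nonneg_right _ (by linarith)
    nlinarith
  linarith

section Pairs

variable {V : Type*} [Fintype V] [DecidableEq V] (adj : V → V → Prop) [DecidableRel adj]

/-- number of ordered adjacent pairs satisfying a relation -/
def cnt (R : V → V → Prop) [DecidableRel R] : ℝ :=
  ((univ.filter fun p : V × V => adj p.1 p.2 ∧ R p.1 p.2).card : ℝ)

lemma cnt_nonneg (R : V → V → Prop) [DecidableRel R] : 0 ≤ cnt adj R := by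
  unfold cnt; positivity

lemma cnt_eq_sum (R : V → V → Prop) [DecidableRel R] :
    cnt adj R = ∑ v : V, ((univ.filter fun u => adj v u ∧ R v u).card : ℝ) := by
  unfold cnt
  have : (univ.filter fun p : V × V => adj p.1 p.2 ∧ R p.1 p.2).card
      = ∑ v : V, (univ.filter fun u => adj v u ∧ R v u).card := by
    simp only [card_filter]
    rw [← univ_product_univ, sum_product]
  exact_mod_cast this

lemma cnt_swap (hsymm : ∀ u v, adj u v → adj v u) (R : V → V → Prop) [DecidableRel R] :
    cnt adj R = cnt adj (fun u v => R v u) := by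
  unfold cnt
  congr 1
  apply card_bij (fun p _ => p.swap)
  · intro p hp
    simp only [mem_filter, mem_univ, true_and, Prod.fst_swap, Prod.snd_swap] at hp ⊢
    exact ⟨hsymm _ _ hp.1, hp.2⟩
  · intro p _ q _ h
    exact Prod.swap_injective h
  · intro p hp
    refine ⟨p.swap, ?_, by simp⟩
    simp only [mem_filter, mem_univ, true_and, Prod.fst_swap, Prod.snd_swap] at hp ⊢
    exact ⟨hsymm _ _ hp.1, hp.2⟩

lemma cnt_mono (R S : V → V → Prop) [DecidableRel R] [DecidableRel S]
    (h : ∀ u v, adj u v → R u v → S u v) : cnt adj R ≤ cnt adj S := by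
  unfold cnt
  have : (univ.filter fun p : V × V => adj p.1 p.2 ∧ R p.1 p.2).card ≤
      (univ.filter fun p : V × V => adj p.1 p.2 ∧ S p.1 p.2).card := by
    apply card_le_card
    intro p hp
    simp only [mem_filter, mem_univ, true_and] at hp ⊢
    exact ⟨hp.1, h _ _ hp.1 hp.2⟩
  exact_mod_cast this

lemma cnt_congr (R S : V → V → Prop) [DecidableRel R] [DecidableRel S]
    (h : ∀ u v, adj u v → (R u v ↔ S u v)) : cnt adj R = cnt adj S :=
  le_antisymm (cnt_mono adj R S fun u v h1 h2 => (h u v h1).1 h2)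
    (cnt_mono adj S R fun u v h1 h2 => (h u v h1).2 h2)

lemma cnt_or_le (R S : V → V → Prop) [DecidableRel R] [DecidableRel S] :
    cnt adj (fun u v => R u v ∨ S u v) ≤ cnt adj R + cnt adj S := by
  unfold cnt
  have h1 : (univ.filter fun p : V × V => adj p.1 p.2 ∧ (R p.1 p.2 ∨ S p.1 p.2)) ⊆
      (univ.filter fun p : V × V => adj p.1 p.2 ∧ R p.1 p.2) ∪
      (univ.filter fun p : V × V => adj p.1 p.2 ∧ S p.1 p.2) := by
    intro p hp
    simp only [mem_filter, mem_univ, true_and, mem_union] at hp ⊢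
    tauto
  have := (card_le_card h1).trans (card_union_le _ _)
  exact_mod_cast this

lemma cnt_or_eq (R S : V → V → Prop) [DecidableRel R] [DecidableRel S]
    (hdisj : ∀ u v, adj u v → R u v → ¬ S u v) :
    cnt adj (fun u v => R u v ∨ S u v) = cnt adj R + cnt adj S := by
  unfold cnt
  have h1 : (univ.filter fun p : V × V => adj p.1 p.2 ∧ (R p.1 p.2 ∨ S p.1 p.2)) =
      (univ.filter fun p : V × V => adj p.1 p.2 ∧ R p.1 p.2) ∪
      (univ.filter fun p : V × V => adj p.1 p.2 ∧ S p.1 p.2) := by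
    ext p
    simp only [mem_filter, mem_univ, true_and, mem_union]
    tauto
  rw [h1, card_union_of_disjoint]
  · push_cast; ring
  · rw [disjoint_left]
    intro p hp hq
    simp only [mem_filter, mem_univ, true_and] at hp hq
    exact hdisj _ _ hp.1 hp.2 hq.2

lemma b_eq_cnt (A : Finset V) : b adj A = cnt adj (fun u v => u ∈ A ∧ v ∉ A) := by
  unfold b cnt B
  congr 2
  ext p
  simp only [mem_filter, mem_univ, true_and]
  tauto

/-- sum over labels -/
lemma cnt_sum_label {ι : Type*} [Fintype ι] [DecidableEq ι] (f : V → ι) (R : V → V → Prop)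
    [DecidableRel R] :
    ∑ i, cnt adj (fun u v => f u = i ∧ R u v) = cnt adj R := by
  unfold cnt
  have : ∑ i, (univ.filter fun p : V × V => adj p.1 p.2 ∧ (f p.1 = i ∧ R p.1 p.2)).card =
      (univ.filter fun p : V × V => adj p.1 p.2 ∧ R p.1 p.2).card := by
    rw [card_eq_sum_card_fiberwise (f := fun p : V × V => f p.1)
      (s := univ.filter fun p : V × V => adj p.1 p.2 ∧ R p.1 p.2) (t := univ) (by simp)]
    apply sum_congr rfl
    intro i _
    rw [filter_filter]
    congr 1
    ext p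
    simp only [mem_filter, mem_univ, true_and]
    tauto
  exact_mod_cast this

end Pairs

end Pool.Agent.Helper65.IsoCore
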