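import Mathlib
import Pool.Agent.Helper65.IsoCore3

set_option autoImplicit false

namespace Pool.Agent.Helper65.IsoCore

open Finset
open scoped Pointwise

section Core

variable {G V ι : Type*} [Group G] [Fintype G] [MulAction G V]
  [MulAction.IsPretransitive G V] [Fintype V] [DecidableEq V] [Fintype ι] [DecidableEq ι]
  {adj : V → V → Prop} [DecidableRel adj]

/-- For a labelling invariant under a transitive group every vertex has the same number of
neighbours with another label. -/
lemma const_out [Nonempty V] (hinv : ∀ (g : G) u v, adj u v → adj (g • u) (g • v)) (w : V → ι)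
    (hw : ∀ (g : G) u v, w u = w v → w (g • u) = w (g • v)) :
    ∃ c : ℝ, 0 ≤ c ∧ ∀ v, ((univ.filter fun u => adj v u ∧ w u ≠ w v).card : ℝ) = c := by
  classical
  obtain ⟨v0⟩ := ‹Nonempty V›
  refine ⟨((univ.filter fun u => adj v0 u ∧ w u ≠ w v0).card : ℝ), by positivity, ?_⟩
  have key : ∀ (g : G) v, (univ.filter fun u => adj v u ∧ w u ≠ w v).card ≤
      (univ.filter fun u => adj (g • v) u ∧ w u ≠ w (g • v)).card := by
    intro g v
    apply card_le_card_of_injOn (fun u => g • u)
    · intro u hu
      simp only [coe_filter, mem_univ, true_and, Set.mem_ofPred_eq] at hu ⊢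
      refine ⟨hinv g _ _ hu.1, ?_⟩
      intro h
      apply hu.2
      have := hw g⁻¹ _ _ h
      rwa [inv_smul_smul, inv_smul_smul] at this
    · intro u _ u' _ h
      exact MulAction.injective g h
  intro v
  obtain ⟨g, hg⟩ := MulAction.exists_smul_eq G v0 v
  have h1 := key g v0
  have h2 := key g⁻¹ v
  rw [← hg, inv_smul_smul] at h2
  rw [hg] at h1 h2
  exact_mod_cast le_antisymm h2 h1

lemma cnt_out (w : V → ι) (c : ℝ)
    (hc : ∀ v, ((univ.filter fun u => adj v u ∧ w u ≠ w v).card : ℝ) = c)
    (T : Finset V) : cnt adj (fun u v => u ∈ T ∧ w v ≠ w u) = c * (T.card : ℝ) := by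
  rw [cnt_eq_sum]
  have : ∀ v : V, ((univ.filter fun u => adj v u ∧ (v ∈ T ∧ w u ≠ w v)).card : ℝ)
      = if v ∈ T then c else 0 := by
    intro v
    split_ifs with h
    · rw [← hc v]
      congr 2
      ext u
      simp [h]
    · have : (univ.filter fun u => adj v u ∧ (v ∈ T ∧ w u ≠ w v)) = ∅ := by
        ext u; simp [h]
      rw [this]; simp
  rw [sum_congr rfl (fun v _ => this v), sum_ite_mem, univ_inter, sum_const, nsmul_eq_mul, mul_comm]

/-- boundary of a subset of a block -/
lemma b_sub_block (w : V → ι) (c : ℝ)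
    (hc : ∀ v, ((univ.filter fun u => adj v u ∧ w u ≠ w v).card : ℝ) = c)
    (i : ι) (T : Finset V) (hT : T ⊆ fib w i) :
    b adj T = c * (T.card : ℝ) + cnt adj (fun u v => u ∈ T ∧ v ∈ fib w i \ T) := by
  rw [b_eq_cnt, ← cnt_out w c hc T, ← cnt_or_eq]
  · apply cnt_congr
    intro u v _
    constructor
    · rintro ⟨h1, h2⟩
      by_cases h : w v = w u
      · right
        refine ⟨h1, ?_⟩
        rw [mem_sdiff, mem_fib]
        refine ⟨?_, h2⟩
        rw [h]
        exact (mem_fib w i u).1 (hT h1)
      · left; exact ⟨h1, h⟩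
    · rintro (⟨h1, h2⟩ | ⟨h1, h2⟩)
      · refine ⟨h1, ?_⟩
        intro h3
        apply h2
        rw [(mem_fib w i v).1 (hT h3), (mem_fib w i u).1 (hT h1)]
      · exact ⟨h1, (mem_sdiff.1 h2).2⟩
  · rintro u v _ ⟨h1, h2⟩ ⟨_, h3⟩
    apply h2
    rw [(mem_fib w i v).1 (mem_sdiff.1 h3).1, (mem_fib w i u).1 (hT h1)]

set_option maxHeartbeats 4000000 in
theorem core (hsymm : ∀ u v, adj u v → adj v u)
    (hinv : ∀ (g : G) u v, adj u v → adj (g • u) (g • v))
    (f : V → ι) (hf : Function.Surjective f) (hn : 2 ≤ Fintype.card ι) (x K : ℝ) (hx0 : 0 ≤ x)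
    (hxK : 2 * ((Fintype.card ι : ℝ) + 1) * x < K)
    (hA : ∀ i, b adj (fib f i) ≤ x * ((fib f i).card : ℝ))
    (hK : ∀ l : V → Option ι, Function.Surjective l →
      ∃ o, K * ((fib l o).card : ℝ) ≤ b adj (fib l o))
    (hmin : ∀ l : V → ι, Function.Surjective l →
      ∃ i, x * ((fib l i).card : ℝ) ≤ b adj (fib l i)) :
    (∀ (g : G) u v, f u = f v → f (g • u) = f (g • v)) ∧
    (∀ i, (Fintype.card ι : ℝ) * ((fib f i).card : ℝ) = Fintype.card V) ∧
    (∀ v, ((univ.filter fun u => adj v u ∧ f u ≠ f v).card : ℝ) = x) := by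
  classical
  have hn' : (2 : ℝ) ≤ (Fintype.card ι : ℝ) := by exact_mod_cast hn
  have hne : Nonempty ι := Fintype.card_pos_iff.1 (by omega)
  have hKpos : 0 < K := lt_of_le_of_lt (by positivity) hxK
  have hfibpos : ∀ i, 0 < (fib f i).card := by
    intro i
    obtain ⟨v, hv⟩ := hf i
    exact card_pos.2 ⟨v, by simpa using hv⟩
  obtain ⟨i0, hi0⟩ := Finite.exists_min (fun i => (fib f i).card)
  have hVne : Nonempty V := ⟨(hf i0).choose⟩
  have hsplit := fun (S : Finset V) hS hS' => split (adj := adj) f K hK S hS hS'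
  set n : ℝ := (Fintype.card ι : ℝ) with hndef
  have hxK1 : x < K := by nlinarith
  have hApos : ∀ i, (0:ℝ) < ((fib f i).card : ℝ) := fun i => by exact_mod_cast hfibpos i
  -- no part can be the bad one
  have hnotpart : ∀ i, ¬ (K * ((fib f i).card : ℝ) ≤ b adj (fib f i)) := by
    intro i h
    have h1 := hA i
    have h2 := mul_lt_mul_of_pos_right hxK1 (hApos i)
    linarith
  set A := fib f i0 with hAdef
  have hA0 : b adj A ≤ x * (A.card : ℝ) := hA i0
  have hAg : ∀ g : G, b adj (g • A) ≤ x * (A.card : ℝ) := by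
    intro g; rw [b_smul hinv]; exact hA0
  have hA0pos : (0:ℝ) < (A.card : ℝ) := hApos i0
  -- dichotomy
  have hD : ∀ g : G, ¬ ((A.card : ℝ) ≤ (n + 1) * ((A ∩ g • A).card : ℝ) ∧
        (A.card : ℝ) ≤ (n + 1) * ((A \ g • A).card : ℝ)) := by
    rintro g ⟨h1, h2⟩
    have p1 : (0:ℝ) < ((A ∩ g • A).card : ℝ) := by
      by_contra hc
      have : ((A ∩ g • A).card : ℝ) = 0 := le_antisymm (not_lt.1 hc) (by positivity)
      rw [this] at h1; linarith
    have p2 : (0:ℝ) < ((A \ g • A).card : ℝ) := by
      by_contra hc
      have : ((A \ g • A).card : ℝ) = 0 := le_antisymm (not_lt.1 hc) (by positivity)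
      rw [this] at h2; linarith
    have p1' : (A ∩ g • A).Nonempty := card_pos.1 (by exact_mod_cast p1)
    have p2' : (A \ g • A).Nonempty := card_pos.1 (by exact_mod_cast p2)
    rcases hsplit (A ∩ g • A) p1' (by
      intro i
      by_cases hi : i = i0
      · obtain ⟨v, hv⟩ := p2'
        rw [mem_sdiff] at hv
        refine ⟨v, ?_, ?_⟩
        · rw [mem_inter]; exact fun h => hv.2 h.2
        · rw [hi]; exact (mem_fib f i0 v).1 hv.1
      · obtain ⟨v, hv⟩ := hf i
        refine ⟨v, ?_, hv⟩
        rw [mem_inter, hAdef, mem_fib]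
        rintro ⟨h, _⟩
        exact hi (hv.symm.trans h)) with h | ⟨i, h⟩
    · have h3 : b adj (A ∩ g • A) ≤ 2 * x * (A.card : ℝ) := by
        have := b_inter adj A (g • A)
        have := hAg g
        linarith
      have h4 : K * (A.card : ℝ) ≤ (n + 1) * (K * ((A ∩ g • A).card : ℝ)) := by
        have := mul_le_mul_of_nonneg_left h1 hKpos.le
        linarith
      have h5 : (n + 1) * (K * ((A ∩ g • A).card : ℝ)) ≤ (n + 1) * (2 * x * (A.card : ℝ)) :=
        mul_le_mul_of_nonneg_left (h.trans h3) (by linarith)
      have h6 := mul_lt_mul_of_pos_right hxK hA0pos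
      linarith
    · by_cases hi : i = i0
      · have e : fib f i \ (A ∩ g • A) = A \ g • A := by
          rw [hi, ← hAdef]
          ext v
          simp only [mem_sdiff, mem_inter]
          tauto
        rw [e] at h
        have h3 : b adj (A \ g • A) ≤ 2 * x * (A.card : ℝ) := by
          have := b_sdiff hsymm A (g • A)
          have := hAg g
          linarith
        have h4 : K * (A.card : ℝ) ≤ (n + 1) * (K * ((A \ g • A).card : ℝ)) := by
          have := mul_le_mul_of_nonneg_left h2 hKpos.le
          linarith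
        have h5 : (n + 1) * (K * ((A \ g • A).card : ℝ)) ≤ (n + 1) * (2 * x * (A.card : ℝ)) :=
          mul_le_mul_of_nonneg_left (h.trans h3) (by linarith)
        have h6 := mul_lt_mul_of_pos_right hxK hA0pos
        linarith
      · have e : fib f i \ (A ∩ g • A) = fib f i := by
          ext v
          simp only [mem_sdiff, mem_inter, mem_fib, hAdef]
          constructor
          · exact fun h => h.1
          · intro h
            refine ⟨h, ?_⟩
            rintro ⟨h', _⟩
            exact hi (h.symm.trans h')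
        rw [e] at h
        exact hnotpart i h
  -- match
  have hM : ∀ g : G, ∃ j, n * (fib f j).card < (n + 1) * ((g • A ∩ fib f j).card : ℝ) := by
    intro g
    by_contra hc
    push Not at hc
    have hcardsplit : ∀ j, ((fib f j).card : ℝ) =
        ((g • A ∩ fib f j).card : ℝ) + ((fib f j \ g • A).card : ℝ) := by
      intro j
      have := card_inter_add_card_sdiff (fib f j) (g • A)
      rw [inter_comm] at this
      exact_mod_cast this.symm
    have hbig : ∀ j, ((fib f j).card : ℝ) ≤ (n + 1) * ((fib f j \ g • A).card : ℝ) := by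
      intro j
      have h1 := hc j
      have h2 := hcardsplit j
      nlinarith
    have hbigne : ∀ j, (fib f j \ g • A).Nonempty := by
      intro j
      apply card_pos.1
      have h1 := hbig j
      have h2 := hApos j
      have : (0:ℝ) < ((fib f j \ g • A).card : ℝ) := by
        by_contra hc
        have : ((fib f j \ g • A).card : ℝ) = 0 := le_antisymm (not_lt.1 hc) (by positivity)
        rw [this] at h1; linarith
      exact_mod_cast this
    -- g A \ A
    have hS1 : (A.card : ℝ) ≤ (n + 1) * ((g • A \ A).card : ℝ) := by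
      have h1 := hc i0
      have h2 : (A.card : ℝ) = ((g • A ∩ A).card : ℝ) + ((g • A \ A).card : ℝ) := by
        have := card_inter_add_card_sdiff (g • A) A
        rw [card_smul_finset] at this
        exact_mod_cast this.symm
      rw [← hAdef] at h1
      nlinarith
    have hS2 : (0:ℝ) < ((g • A \ A).card : ℝ) := by
      by_contra hc
      have : ((g • A \ A).card : ℝ) = 0 := le_antisymm (not_lt.1 hc) (by positivity)
      rw [this] at hS1; linarith
    have hS3 : (g • A \ A).Nonempty := card_pos.1 (by exact_mod_cast hS2)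
    rcases hsplit (g • A \ A) hS3 (by
      intro i
      by_cases hi : i = i0
      · obtain ⟨v, hv⟩ := hf i
        refine ⟨v, ?_, hv⟩
        rw [mem_sdiff, hAdef, mem_fib]
        rintro ⟨_, h⟩
        exact h (hv.trans hi)
      · obtain ⟨v, hv⟩ := hbigne i
        rw [mem_sdiff, mem_fib] at hv
        refine ⟨v, ?_, hv.1⟩
        rw [mem_sdiff]
        exact fun h => hv.2 h.1) with h | ⟨i, h⟩
    · have h3 : b adj (g • A \ A) ≤ 2 * x * (A.card : ℝ) := by
        have := b_sdiff hsymm (g • A) A
        have := hAg g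
        linarith
      have h4 : K * (A.card : ℝ) ≤ (n + 1) * (K * ((g • A \ A).card : ℝ)) := by
        have := mul_le_mul_of_nonneg_left hS1 hKpos.le
        linarith
      have h5 : (n + 1) * (K * ((g • A \ A).card : ℝ)) ≤ (n + 1) * (2 * x * (A.card : ℝ)) :=
        mul_le_mul_of_nonneg_left (h.trans h3) (by linarith)
      have h6 := mul_lt_mul_of_pos_right hxK hA0pos
      linarith
    · by_cases hi : i = i0
      · have e : fib f i \ (g • A \ A) = A := by
          rw [hi, ← hAdef]
          ext v
          simp only [mem_sdiff]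
          tauto
        rw [e] at h
        exact hnotpart i0 h
      · have e : fib f i \ (g • A \ A) = fib f i \ g • A := by
          ext v
          simp only [mem_sdiff, mem_fib, hAdef]
          constructor
          · rintro ⟨h1, h2⟩
            refine ⟨h1, fun h3 => h2 ⟨h3, fun h4 => hi (h1.symm.trans h4)⟩⟩
          · rintro ⟨h1, h2⟩
            exact ⟨h1, fun h3 => h2 h3.1⟩
        rw [e] at h
        have h3 : b adj (fib f i \ g • A) ≤ 2 * x * ((fib f i).card : ℝ) := by
          have k1 := b_sdiff hsymm (fib f i) (g • A)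
          have k2 := hAg g
          have k3 := hA i
          have k4 : (A.card : ℝ) ≤ ((fib f i).card : ℝ) := by exact_mod_cast hi0 i
          have k5 := mul_le_mul_of_nonneg_left k4 hx0
          linarith
        have h4 : K * ((fib f i).card : ℝ) ≤ (n + 1) * (K * ((fib f i \ g • A).card : ℝ)) := by
          have := mul_le_mul_of_nonneg_left (hbig i) hKpos.le
          linarith
        have h5 : (n + 1) * (K * ((fib f i \ g • A).card : ℝ)) ≤
            (n + 1) * (2 * x * ((fib f i).card : ℝ)) :=
          mul_le_mul_of_nonneg_left (h.trans h3) (by linarith)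
        have h6 := mul_lt_mul_of_pos_right hxK (hApos i)
        linarith
  obtain ⟨w, hwsurj, hwinv, hwcard, hwbig, hw2⟩ :=
    blocks (G := G) f i0 hn (hfibpos i0) hi0 hD hM
  obtain ⟨c, hc0, hc⟩ := const_out (G := G) hinv w hwinv
  set v : ℝ := (Fintype.card V : ℝ) with hv
  have hvpos : 0 < v := by rw [hv]; exact_mod_cast Fintype.card_pos
  have hbw : ∀ i, b adj (fib w i) = c * ((fib w i).card : ℝ) := by
    intro i
    rw [b_sub_block w c hc i (fib w i) (Subset.refl _)]
    have : cnt adj (fun u v => u ∈ fib w i ∧ v ∈ fib w i \ fib w i) = 0 := by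
      unfold cnt
      simp
    rw [this, add_zero]
  have hwpos : ∀ i, (0:ℝ) < ((fib w i).card : ℝ) := by
    intro i
    have := hwcard i
    by_contra hcon
    have h0 : ((fib w i).card : ℝ) = 0 := le_antisymm (not_lt.1 hcon) (by positivity)
    rw [h0] at this; linarith
  have hxc : x ≤ c := by
    obtain ⟨i, hi⟩ := hmin w hwsurj
    rw [hbw i] at hi
    exact le_of_mul_le_mul_right hi (hwpos i)
  -- displaced vertices
  let S : ι → Finset V := fun i => fib w i \ fib f i
  set D : Finset V := univ.filter fun u => f u ≠ w u with hDdef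
  have hmemS : ∀ i u, u ∈ S i ↔ w u = i ∧ f u ≠ i := by
    intro i u; simp [S]
  have hmemD : ∀ u, u ∈ D ↔ f u ≠ w u := by intro u; simp [hDdef]
  have hSsum : ∑ i, ((S i).card : ℝ) = (D.card : ℝ) := by
    have : ∑ i, (S i).card = D.card := by
      rw [card_eq_sum_card_fiberwise (f := w) (s := D) (t := univ) (by simp)]
      apply sum_congr rfl
      intro i _
      congr 1
      ext u
      rw [hmemS, mem_filter, hmemD]
      constructor
      · rintro ⟨h1, h2⟩; exact ⟨by rw [h1]; exact h2, h1⟩
      · rintro ⟨h1, h2⟩; exact ⟨h2, by rw [← h2]; exact h1⟩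
    exact_mod_cast this
  have hScard : ∀ i, ((S i).card : ℝ) = ((fib w i).card : ℝ) - ((fib f i ∩ fib w i).card : ℝ) := by
    intro i
    have := card_inter_add_card_sdiff (fib w i) (fib f i)
    rw [inter_comm] at this
    have h' : ((fib f i ∩ fib w i).card : ℝ) + ((S i).card : ℝ) = ((fib w i).card : ℝ) := by
      exact_mod_cast this
    linarith
  have hSsmall : ∀ i, n * (n + 1) * ((S i).card : ℝ) < v := by
    intro i
    rw [hScard]
    have h1 := hwcard i
    have h2 := hwbig i
    nlinarith
  have hDsmall : (n + 1) * (D.card : ℝ) < v := by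
    have h1 : ∑ i : ι, n * (n + 1) * ((S i).card : ℝ) < ∑ _i : ι, v :=
      sum_lt_sum_of_nonempty univ_nonempty fun i _ => hSsmall i
    rw [← mul_sum, hSsum, sum_const, nsmul_eq_mul, card_univ, ← hndef] at h1
    have h2 : n * ((n + 1) * (D.card : ℝ)) < n * v := by linarith
    exact lt_of_mul_lt_mul_left h2 (by linarith)
  have h4D : 4 * (D.card : ℝ) < v := by
    rcases Nat.lt_or_ge 2 (Fintype.card ι) with h3 | h3
    · have : (3 : ℝ) ≤ n := by rw [hndef]; exact_mod_cast h3
      have hD0 : (0:ℝ) ≤ (D.card : ℝ) := by positivity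
      nlinarith
    · have hcard2 : Fintype.card ι = 2 := le_antisymm h3 hn
      have hn2 : n = 2 := by rw [hndef, hcard2]; norm_num
      have hw2' := hw2 hcard2
      have hwc := hwcard i0
      have hwb := hwbig i0
      rw [← hAdef] at hwb
      rw [← hndef, hn2] at hwc hwb
      -- two parts
      have h2a : 2 * (A.card : ℝ) ≤ v := by
        have hsum : ∑ i, (fib f i).card = Fintype.card V :=
          (card_eq_sum_card_fiberwise (f := f) (s := univ) (t := univ) (by simp)).symm
        have : Fintype.card ι * A.card ≤ Fintype.card V := by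
          rw [← hsum]
          calc Fintype.card ι * A.card = ∑ _i : ι, A.card := by simp
            _ ≤ ∑ i, (fib f i).card := sum_le_sum fun i _ => hi0 i
        rw [hcard2] at this
        rw [hv]; exact_mod_cast this
      have hDle : (D.card : ℝ) ≤ ((fib w i0).card : ℝ) - ((A ∩ fib w i0).card : ℝ) +
          ((A.card : ℝ) - ((A ∩ fib w i0).card : ℝ)) := by
        have hsub : D ⊆ (fib w i0 \ A) ∪ (A \ fib w i0) := by
          intro u hu
          rw [hmemD] at hu
          rw [mem_union, mem_sdiff, mem_sdiff, hAdef, mem_fib, mem_fib]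
          by_cases h1 : w u = i0
          · left; exact ⟨h1, fun h => hu (h.trans h1.symm)⟩
          · right
            refine ⟨?_, h1⟩
            -- only two labels
            by_contra h2
            have : ({i0, w u, f u} : Finset ι).card ≤ 2 := by
              rw [← hcard2]; exact card_le_univ _
            rw [card_insert_of_notMem, card_insert_of_notMem, card_singleton] at this
            · omega
            · rw [mem_singleton]; exact fun h => hu h.symm
            · rw [mem_insert, mem_singleton]
              rintro (h | h)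
              · exact h1 h.symm
              · exact h2 h.symm
        have h1 := (card_le_card hsub).trans (card_union_le _ _)
        have e1 : ((fib w i0 \ A).card : ℝ) =
            ((fib w i0).card : ℝ) - ((A ∩ fib w i0).card : ℝ) := hScard i0
        have e2 : ((A \ fib w i0).card : ℝ) = (A.card : ℝ) - ((A ∩ fib w i0).card : ℝ) := by
          have := card_inter_add_card_sdiff A (fib w i0)
          have h' : ((A ∩ fib w i0).card : ℝ) + ((A \ fib w i0).card : ℝ) = (A.card : ℝ) := by
            exact_mod_cast this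
          linarith
        rw [← e1, ← e2]
        exact_mod_cast h1
      have hα : ((A ∩ fib w i0).card : ℝ) ≤ (A.card : ℝ) := by
        exact_mod_cast card_le_card inter_subset_left
      have := arith3 ((fib w i0).card : ℝ) (A.card : ℝ) ((A ∩ fib w i0).card : ℝ)
        (hwpos i0) (by linarith) hα (by linarith) (by
          have e : 2 * ((fib w i0).card : ℝ) = v := hwc
          rw [e]; exact hw2')
      linarith
  -- expansion of S i
  have hSK : ∀ i, K * ((S i).card : ℝ) ≤ b adj (S i) := by
    intro i
    rcases (S i).eq_empty_or_nonempty with hemp | hne'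
    · rw [hemp, card_empty, Nat.cast_zero, mul_zero]; exact b_nonneg adj _
    have hSsub : S i ⊆ fib w i := sdiff_subset
    have hbS := b_sub_block (adj := adj) w c hc i (S i) hSsub
    have he0 := cnt_nonneg adj (fun u v => u ∈ S i ∧ v ∈ fib w i \ S i)
    set e : ℝ := cnt adj (fun u v => u ∈ S i ∧ v ∈ fib w i \ S i) with hedef
    have hlow : c * ((S i).card : ℝ) ≤ b adj (S i) := by rw [hbS]; linarith
    have hrest : ((fib w i \ S i).card : ℝ) = ((fib w i).card : ℝ) - ((S i).card : ℝ) := by
      have := card_sdiff_add_card_eq_card hSsub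
      have h' : ((fib w i \ S i).card : ℝ) + ((S i).card : ℝ) = ((fib w i).card : ℝ) := by
        exact_mod_cast this
      linarith
    have hSle : ((S i).card : ℝ) ≤ ((fib w i \ S i).card : ℝ) := by
      have h1 := hSsmall i
      have h2 := hwcard i
      have h3 : (0:ℝ) ≤ ((S i).card : ℝ) := by positivity
      rw [hrest]
      have h4 : n * (3 * ((S i).card : ℝ)) ≤ n * ((n + 1) * ((S i).card : ℝ)) := by
        apply mul_le_mul_of_nonneg_left _ (by linarith)
        apply mul_le_mul_of_nonneg_right _ h3
        linarith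
      have h5 : n * (3 * ((S i).card : ℝ)) < n * ((fib w i).card : ℝ) := by linarith
      have h6 := lt_of_mul_lt_mul_left h5 (by linarith)
      linarith
    rcases split (adj := adj) w K hK (S i) hne' (by
      intro j
      by_cases hj : j = i
      · have hpos : (0:ℝ) < ((fib w i \ S i).card : ℝ) := by
          have : (0:ℝ) < ((S i).card : ℝ) := by exact_mod_cast card_pos.2 hne'
          linarith
        obtain ⟨u, hu⟩ := card_pos.1 (show 0 < (fib w i \ S i).card by exact_mod_cast hpos)
        rw [mem_sdiff, mem_fib] at hu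
        exact ⟨u, hu.2, hu.1.trans hj.symm⟩
      · obtain ⟨u, hu⟩ := hwsurj j
        refine ⟨u, ?_, hu⟩
        rw [hmemS]
        rintro ⟨h, _⟩
        exact hj (hu.symm.trans h)) with h | ⟨j, h⟩
    · exact h
    · by_cases hj : j = i
      · rw [hj] at h
        have hb2 := b_sub_block (adj := adj) w c hc i (fib w i \ S i) sdiff_subset
        have hcs : cnt adj (fun u v => u ∈ fib w i \ S i ∧ v ∈ fib w i \ (fib w i \ S i)) = e := by
          rw [hedef, cnt_swap adj hsymm]
          apply cnt_congr
          intro p q _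
          have : fib w i \ (fib w i \ S i) = S i := by
            rw [sdiff_sdiff_right_self]
            exact inter_eq_right.2 hSsub
          rw [this]
          tauto
        rw [hcs] at hb2
        rw [hb2] at h
        rw [hbS]
        rcases le_total K c with hKc | hKc
        · have := mul_le_mul_of_nonneg_right hKc (show (0:ℝ) ≤ ((S i).card : ℝ) by positivity)
          linarith
        · have h1 : (K - c) * ((S i).card : ℝ) ≤ (K - c) * ((fib w i \ S i).card : ℝ) :=
            mul_le_mul_of_nonneg_left hSle (by linarith)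
          linarith
      · have hfj : fib w j \ S i = fib w j := by
          ext u
          rw [mem_sdiff, hmemS, mem_fib]
          constructor
          · exact fun h => h.1
          · intro h
            refine ⟨h, ?_⟩
            rintro ⟨h', _⟩
            exact hj (h.symm.trans h')
        rw [hfj, hbw j] at h
        have hKc : K ≤ c := le_of_mul_le_mul_right h (hwpos j)
        have := mul_le_mul_of_nonneg_right hKc (show (0:ℝ) ≤ ((S i).card : ℝ) by positivity)
        linarith
  -- counting
  set Y : ℝ := cnt adj (fun u v => u ∈ D ∧ (w v = w u ∧ v ∉ D)) with hY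
  have hsumS : ∑ i, b adj (S i) = c * (D.card : ℝ) + Y := by
    have e1 : ∀ i, b adj (S i) = cnt adj (fun u v => w u = i ∧
        (u ∈ D ∧ (w v ≠ w u ∨ (w v = w u ∧ v ∉ D)))) := by
      intro i
      rw [b_eq_cnt]
      apply cnt_congr
      intro p q _
      rw [hmemS, hmemS, hmemD, hmemD]
      constructor
      · rintro ⟨⟨h1, h2⟩, h3⟩
        refine ⟨h1, fun h => h2 (h.trans h1), ?_⟩
        by_cases h4 : w q = w p
        · right
          refine ⟨h4, ?_⟩
          intro h5
          apply h3
          exact ⟨h4.trans h1, fun h6 => h5 (by rw [h6, h4, h1])⟩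
        · left; exact h4
      · rintro ⟨h1, h2, h3⟩
        refine ⟨⟨h1, fun h => h2 (h.trans h1.symm)⟩, ?_⟩
        rintro ⟨h4, h5⟩
        rcases h3 with h3 | ⟨h3, h6⟩
        · exact h3 (h4.trans h1.symm)
        · apply h6
          intro h7
          exact h5 (h7.trans h4)
    rw [sum_congr rfl (fun i _ => e1 i), cnt_sum_label, hY, ← cnt_out w c hc D, ← cnt_or_eq]
    · apply cnt_congr
      intro p q _
      tauto
    · rintro p q _ ⟨_, h1⟩ ⟨_, h2, _⟩
      exact h1 h2
  have hKD : K * (D.card : ℝ) ≤ c * (D.card : ℝ) + Y := by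
    rw [← hsumS, ← hSsum, mul_sum]
    exact sum_le_sum fun i _ => hSK i
  -- upper bound for crossing pairs
  have hX : cnt adj (fun u v => f v ≠ f u) ≤ x * v := by
    have e1 : ∀ i, b adj (fib f i) = cnt adj (fun u v => f u = i ∧ f v ≠ f u) := by
      intro i
      rw [b_eq_cnt]
      apply cnt_congr
      intro p q _
      rw [mem_fib, mem_fib]
      constructor
      · rintro ⟨h1, h2⟩; exact ⟨h1, fun h => h2 (h.trans h1)⟩
      · rintro ⟨h1, h2⟩; exact ⟨h1, fun h => h2 (h.trans h1.symm)⟩
    have e2 : cnt adj (fun u v => f v ≠ f u) = ∑ i, b adj (fib f i) := by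
      rw [sum_congr rfl (fun i _ => e1 i), cnt_sum_label]
    rw [e2]
    have e3 : ∑ i, ((fib f i).card : ℝ) = v := by
      have : ∑ i, (fib f i).card = Fintype.card V :=
        (card_eq_sum_card_fiberwise (f := f) (s := univ) (t := univ) (by simp)).symm
      rw [hv]; exact_mod_cast this
    rw [← e3, mul_sum]
    exact sum_le_sum fun i _ => hA i
  -- lower bound
  set Z : ℝ := cnt adj (fun u v => w v ≠ w u ∧ (u ∉ D ∧ v ∉ D)) with hZ
  have hZlow : c * v - 2 * (c * (D.card : ℝ)) ≤ Z := by
    have h1 : cnt adj (fun u v => u ∈ (univ : Finset V) ∧ w v ≠ w u) = c * v := by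
      rw [cnt_out w c hc univ, hv, card_univ]
    have h2 : cnt adj (fun u v => u ∈ (univ : Finset V) ∧ w v ≠ w u) ≤
        Z + (cnt adj (fun u v => u ∈ D ∧ w v ≠ w u) + cnt adj (fun u v => v ∈ D ∧ w u ≠ w v)) := by
      refine le_trans ?_ (add_le_add_right (cnt_or_le adj _ _) _)
      refine le_trans ?_ (cnt_or_le adj _ _)
      apply cnt_mono
      rintro p q _ ⟨_, h⟩
      by_cases hp : p ∈ D
      · right; left; exact ⟨hp, h⟩
      · by_cases hq : q ∈ D
        · right; right; exact ⟨hq, h.symm⟩
        · left; exact ⟨h, hp, hq⟩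
    have h3 : cnt adj (fun u v => v ∈ D ∧ w u ≠ w v) = cnt adj (fun u v => u ∈ D ∧ w v ≠ w u) :=
      cnt_swap adj hsymm _
    rw [h1, h3, cnt_out w c hc D] at h2
    linarith
  have hXlow : 2 * Y + Z ≤ cnt adj (fun u v => f v ≠ f u) := by
    have hY' : cnt adj (fun u v => v ∈ D ∧ (w u = w v ∧ u ∉ D)) = Y := cnt_swap adj hsymm _
    have e1 : cnt adj (fun u v => (u ∈ D ∧ (w v = w u ∧ v ∉ D)) ∨
        ((v ∈ D ∧ (w u = w v ∧ u ∉ D)) ∨ (w v ≠ w u ∧ (u ∉ D ∧ v ∉ D)))) = Y + (Y + Z) := by
      rw [cnt_or_eq, cnt_or_eq, hY']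
      · rintro p q _ ⟨_, h1, _⟩ ⟨h2, _⟩
        exact h2 h1.symm
      · rintro p q _ ⟨h1, h2, _⟩ (⟨_, _, h3⟩ | ⟨h3, _⟩)
        · exact h3 h1
        · exact h3 h2
    have e2 : 2 * Y + Z = Y + (Y + Z) := by ring
    rw [e2, ← e1]
    apply cnt_mono
    rintro p q _ (⟨h1, h2, h3⟩ | ⟨h1, h2, h3⟩ | ⟨h1, h2, h3⟩)
    · rw [hmemD] at h1 h3
      push Not at h3
      intro h; apply h1; rw [← h, h3, h2]
    · rw [hmemD] at h1 h3
      push Not at h3
      intro h; apply h1; rw [h, h3, h2]
    · rw [hmemD] at h2 h3
      push Not at h2 h3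
      intro h; apply h1; rw [← h3, ← h2, h]
  have hDzero : D.card = 0 := by
    by_contra hD0
    have hDpos : (0:ℝ) < (D.card : ℝ) := by exact_mod_cast Nat.pos_of_ne_zero hD0
    exact arith4 n x K c (D.card : ℝ) v hn' hx0 hxc hxK hDpos h4D (by linarith)
  have hfw : f = w := by
    funext u
    by_contra h
    have : u ∈ D := (hmemD u).2 h
    rw [card_eq_zero.1 hDzero] at this
    exact absurd this (notMem_empty _)
  rw [hfw]
  refine ⟨hwinv, hwcard, ?_⟩
  intro u
  rw [hc u]
  apply le_antisymm _ hxc
  have h1 := hA i0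
  rw [hAdef, hfw, hbw i0] at hA0
  exact le_of_mul_le_mul_right hA0 (hwpos i0)

end Core

end Pool.Agent.Helper65.IsoCore
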